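import Pool.Agent.ANO.Iface
import Pool.Agent.ANO.Idx.Deck

/-!
# ANO, module B: boundedness (package IDX-BDD)

`T₀ = g ∘ model^M`. By induction `lam ^ M * DU p q ≤ DU (model^M p) (model^M q)`, and `DU` is
invariant under `g`, so `lam ^ M * DU p q ≤ DU (T₀ p) (T₀ q)`; in the same way
`lam ^ M * DS (T₀ p) (T₀ q) ≤ DS p q`.

* `model_bdd`: `upper` gives `C'` with `DU p (T₀ p), DS p (T₀ p) ≤ C'` etc. Then
  `lam ^ M * DU p q ≤ DU (T₀ p) (T₀ q) ≤ 2 C' + DU p q`, so `DU p q ≤ 2 C' / (lam ^ M - 1)`; and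
  `DS p q ≤ 2 C' + DS (T₀ p) (T₀ q) ≤ 2 C' + lam ^ (-M) * DS p q`. Now `proper`.
* `model_fix_unique`: `DU w w' = 0`, `DS w w' = 0`, `eq_of_zero`.
-/

set_option autoImplicit false
set_option linter.unusedSectionVars false

open Set Filter Topology
open scoped UpperHalfPlane MatrixGroups

namespace Pool.Agent.ANO.Idx

variable {r k : ℕ} {S : Fin r → PASurface} {A : Matrix (Fin k) (Fin k) ℤ}

private theorem DU_iter_Bdd (G : Geom S A) (n : ℕ) (p q : X r k) :
    G.lam ^ n * G.DU p q ≤ G.DU ((model S A)^[n] p) ((model S A)^[n] q) := by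
  induction n with
  | zero => simp
  | succ n ih =>
    rw [Function.iterate_succ_apply', Function.iterate_succ_apply']
    have h0 : 0 ≤ G.lam := by linarith [G.one_lt_lam]
    calc G.lam ^ (n + 1) * G.DU p q = G.lam * (G.lam ^ n * G.DU p q) := by ring
      _ ≤ G.lam * G.DU ((model S A)^[n] p) ((model S A)^[n] q) :=
        mul_le_mul_of_nonneg_left ih h0
      _ ≤ _ := G.DU_expand _ _

private theorem DS_iter_Bdd (G : Geom S A) (n : ℕ) (p q : X r k) :
    G.lam ^ n * G.DS ((model S A)^[n] p) ((model S A)^[n] q) ≤ G.DS p q := by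
  induction n with
  | zero => simp
  | succ n ih =>
    rw [Function.iterate_succ_apply', Function.iterate_succ_apply']
    have h0 : 0 ≤ G.lam ^ n := pow_nonneg (by linarith [G.one_lt_lam]) n
    calc G.lam ^ (n + 1) * G.DS (model S A ((model S A)^[n] p)) (model S A ((model S A)^[n] q))
        = G.lam ^ n * (G.lam * G.DS (model S A ((model S A)^[n] p))
          (model S A ((model S A)^[n] q))) := by ring
      _ ≤ G.lam ^ n * G.DS ((model S A)^[n] p) ((model S A)^[n] q) :=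
        mul_le_mul_of_nonneg_left (G.DS_expand _ _) h0
      _ ≤ _ := ih

private theorem DU_T_Bdd (G : Geom S A) {M : ℕ} (hM : 0 < M) {g : X r k → X r k}
    (hg : IsDeck S k g) (p q : X r k) :
    G.lam * G.DU p q ≤ G.DU (g ((model S A)^[M] p)) (g ((model S A)^[M] q)) := by
  rw [G.DU_inv g hg]
  refine le_trans (mul_le_mul_of_nonneg_right ?_ (G.DU_nonneg p q)) (DU_iter_Bdd G M p q)
  exact le_self_pow₀ G.one_lt_lam.le hM.ne'

private theorem DS_T_Bdd (G : Geom S A) {M : ℕ} (hM : 0 < M) {g : X r k → X r k}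
    (hg : IsDeck S k g) (p q : X r k) :
    G.lam * G.DS (g ((model S A)^[M] p)) (g ((model S A)^[M] q)) ≤ G.DS p q := by
  rw [G.DS_inv g hg]
  refine le_trans (mul_le_mul_of_nonneg_right ?_ (G.DS_nonneg _ _)) (DS_iter_Bdd G M p q)
  exact le_self_pow₀ G.one_lt_lam.le hM.ne'

theorem model_bdd (G : Geom S A) {M : ℕ} (hM : 0 < M) {g : X r k → X r k}
    (hg : IsDeck S k g) (C : ℝ) : ∃ R : ℝ, ∀ p q, dist p (g ((model S A)^[M] p)) ≤ C →
      dist q (g ((model S A)^[M] q)) ≤ C → dist p q ≤ R := by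
  obtain ⟨C', hC'⟩ := G.upper C
  have hl : 0 < G.lam - 1 := by linarith [G.one_lt_lam]
  obtain ⟨R, hR⟩ := G.proper (2 * C' + 2 * C' / (G.lam - 1))
  refine ⟨R, fun p q hp hq => hR p q ?_ ?_⟩
  · have h1 := (hC' _ _ hp).1
    have h2 := (hC' _ _ hq).1
    have h0 : 0 ≤ C' := le_trans (G.DU_nonneg _ _) h1
    have h3 := DU_T_Bdd G hM hg p q
    have h4 := G.DU_triangle (g ((model S A)^[M] p)) p (g ((model S A)^[M] q))
    have h5 := G.DU_triangle p q (g ((model S A)^[M] q))
    rw [G.DU_symm] at h1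
    have h6 : G.DU p q ≤ 2 * C' / (G.lam - 1) := by
      rw [le_div_iff₀ hl]
      linarith
    linarith
  · have h1 := (hC' _ _ hp).2
    have h2 := (hC' _ _ hq).2
    have h0 : 0 ≤ C' := le_trans (G.DS_nonneg _ _) h1
    have h3 := DS_T_Bdd G hM hg p q
    have h4 := G.DS_triangle p (g ((model S A)^[M] p)) q
    have h5 := G.DS_triangle (g ((model S A)^[M] p)) (g ((model S A)^[M] q)) q
    rw [G.DS_symm] at h2
    have h6 : G.DS (g ((model S A)^[M] p)) (g ((model S A)^[M] q)) ≤ 2 * C' / (G.lam - 1) := by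
      rw [le_div_iff₀ hl]
      linarith
    linarith

theorem model_fix_unique (G : Geom S A) {M : ℕ} (hM : 0 < M) {g : X r k → X r k}
    (hg : IsDeck S k g) {w w' : X r k} (h : g ((model S A)^[M] w) = w)
    (h' : g ((model S A)^[M] w') = w') : w = w' := by
  have hl : 0 < G.lam - 1 := by linarith [G.one_lt_lam]
  refine G.eq_of_zero w w' ?_ ?_
  · have h1 := DU_T_Bdd G hM hg w w'
    rw [h, h'] at h1
    have h2 := G.DU_nonneg w w'
    nlinarith
  · have h1 := DS_T_Bdd G hM hg w w'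
    rw [h, h'] at h1
    have h2 := G.DS_nonneg w w'
    nlinarith

end Pool.Agent.ANO.Idx
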