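import Pool.Agent.ANO.Idx.ConeA

/-!
# ANO, module B: index data at a cone point (package IDX-CONEB)

`n = 2 κ - 1 ≥ 3`, `c` from `cone_ineq`. Choose `ρ > 0` such that the closed disc of radius `ρ`
about `s` is contained in the upper half plane and in the set of `cone_ineq`. By compactness of
(circle) × `[0, 1]` the expression in `cone_ineq` has norm `≥ m > 0` on the circle (`H` is
continuous: `ConeFixed`, and `ofComplex` is continuous at points of the upper half plane). Take
`β > 0` real with `β ≠ 0`, `‖c‖ β < m`, and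
`κ' z = -(c * (conj (z - s) ^ n - β))`, `W = univ` (polynomial in `re`, `im`;
`Complex.conjCLE`). `bdry`: the expression changes by `t c β`, of norm `< m`. `reg`: the
derivative at `z` is `v ↦ -c n conj (z - s) ^ (n - 1) conj v`, and `z ≠ s` if `κ' z = 0`. `zeros`:
`z ↦ conj (z - s)` is injective and maps the zeros into the roots of `T ^ n - β`
(`Polynomial.card_roots'`, `Polynomial.nthRoots`, `Polynomial.card_nthRoots`).
-/

set_option autoImplicit false
set_option linter.unusedSectionVars false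

open Set Filter Topology
open scoped UpperHalfPlane MatrixGroups ComplexConjugate

namespace Pool.Agent.ANO.Idx

private theorem hasFDeriv_ConeB (c b s z : ℂ) (n : ℕ) :
    HasFDerivAt (fun z : ℂ => -(c * (conj (z - s) ^ n - b)))
      (-(c • ((n • conj (z - s) ^ (n - 1)) • (Complex.conjCLE : ℂ →L[ℝ] ℂ)))) z := by
  have h1 : HasFDerivAt (fun z : ℂ => conj (z - s)) (Complex.conjCLE : ℂ →L[ℝ] ℂ) z := by
    have h2 : HasFDerivAt (fun w : ℂ => Complex.conjCLE w) (Complex.conjCLE : ℂ →L[ℝ] ℂ)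
        (z - s) := (Complex.conjCLE : ℂ →L[ℝ] ℂ).hasFDerivAt
    have h3 : HasFDerivAt (fun w : ℂ => w - (s : ℂ)) (ContinuousLinearMap.id ℝ ℂ) z :=
      (hasFDerivAt_id z).sub_const s
    exact h2.comp z h3
  exact (((h1.pow n).sub_const b).const_mul c).neg

theorem cone_box (S : FlatSurface) {s : ℍ} {κ : ℕ} (hκ : 2 ≤ κ) {H : ℍ → ℍ}
    (h : ConeFixed S s κ H) : Nonempty (Box H s (2 * κ - 1)) := by
  obtain ⟨c, hc, hev⟩ := cone_ineq S hκ h
  have hHc : Continuous H := h.2.1
  set n := 2 * κ - 1 with hn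
  have hn0 : n ≠ 0 := by omega
  have hU : {z : ℂ | 0 < z.im} ∈ 𝓝 (s : ℂ) :=
    (isOpen_lt continuous_const Complex.continuous_im).mem_nhds s.im_pos
  obtain ⟨r₁, hr₁, h1⟩ := Metric.mem_nhds_iff.1 hU
  obtain ⟨r₂, hr₂, h2⟩ := Metric.mem_nhdsWithin_iff.1 hev
  set ρ := min r₁ r₂ / 2 with hρ
  have hρ0 : 0 < ρ := by positivity
  have hρ1 : ρ < r₁ := by
    have := min_le_left r₁ r₂
    have : 0 < min r₁ r₂ := lt_min hr₁ hr₂
    rw [hρ]; linarith
  have hρ2 : ρ < r₂ := by
    have := min_le_right r₁ r₂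
    have : 0 < min r₁ r₂ := lt_min hr₁ hr₂
    rw [hρ]; linarith
  have hsub : Metric.closedBall (s : ℂ) ρ ⊆ {z : ℂ | 0 < z.im} :=
    (Metric.closedBall_subset_ball hρ1).trans h1
  have hne : ∀ z ∈ Metric.sphere (s : ℂ) ρ, ∀ t ∈ Icc (0 : ℝ) 1,
      (z - (H (UpperHalfPlane.ofComplex z) : ℂ)) + t •
        (-(c * conj (z - s) ^ n) - (z - (H (UpperHalfPlane.ofComplex z) : ℂ))) ≠ 0 := by
    intro z hz
    have hz1 : z ∈ Metric.ball (s : ℂ) r₂ :=
      Metric.mem_ball.2 ((Metric.mem_sphere.1 hz).trans_lt hρ2)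
    have hz2 : z ∈ ({(s : ℂ)}ᶜ : Set ℂ) := by
      intro h0
      have h3 : dist z (s : ℂ) = ρ := Metric.mem_sphere.1 hz
      rw [mem_singleton_iff.1 h0, dist_self] at h3
      exact hρ0.ne h3
    exact h2 ⟨hz1, hz2⟩
  -- compactness
  have hcH : ContinuousOn (fun z : ℂ => (H (UpperHalfPlane.ofComplex z) : ℂ))
      {z : ℂ | 0 < z.im} :=
    (UpperHalfPlane.continuous_coe.comp hHc).comp_continuousOn
      (fun z hz => (UpperHalfPlane.contMDiffAt_ofComplex (n := 0)
        hz).continuousAt.continuousWithinAt)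
  have hcH' : ContinuousOn (fun p : ℂ × ℝ => (H (UpperHalfPlane.ofComplex p.1) : ℂ))
      (Metric.sphere (s : ℂ) ρ ×ˢ Icc (0 : ℝ) 1) :=
    hcH.comp continuousOn_fst fun p hp => hsub (Metric.sphere_subset_closedBall hp.1)
  have hcont : ContinuousOn (fun p : ℂ × ℝ =>
      ‖(p.1 - (H (UpperHalfPlane.ofComplex p.1) : ℂ)) + p.2 •
        (-(c * conj (p.1 - s) ^ n) - (p.1 - (H (UpperHalfPlane.ofComplex p.1) : ℂ)))‖)
      (Metric.sphere (s : ℂ) ρ ×ˢ Icc (0 : ℝ) 1) := by
    have hb : Continuous fun p : ℂ × ℝ => -(c * conj (p.1 - s) ^ n) := by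
      have : Continuous fun p : ℂ × ℝ => conj (p.1 - s) :=
        Complex.continuous_conj.comp (continuous_fst.sub continuous_const)
      exact (continuous_const.mul (this.pow n)).neg
    exact ((continuousOn_fst.sub hcH').add
      (continuousOn_snd.smul (hb.continuousOn.sub (continuousOn_fst.sub hcH')))).norm
  have hK : IsCompact (Metric.sphere (s : ℂ) ρ ×ˢ Icc (0 : ℝ) 1) :=
    (isCompact_sphere _ _).prod isCompact_Icc
  have hKne : (Metric.sphere (s : ℂ) ρ ×ˢ Icc (0 : ℝ) 1).Nonempty := by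
    refine ⟨((s : ℂ) + ρ, 0), ?_, by simp⟩
    simp [abs_of_pos hρ0]
  obtain ⟨p₀, hp₀, hmin⟩ := hK.exists_isMinOn hKne hcont
  set m := ‖(p₀.1 - (H (UpperHalfPlane.ofComplex p₀.1) : ℂ)) + p₀.2 •
        (-(c * conj (p₀.1 - s) ^ n) - (p₀.1 - (H (UpperHalfPlane.ofComplex p₀.1) : ℂ)))‖
    with hm
  have hm0 : 0 < m := norm_pos_iff.2 (hne p₀.1 hp₀.1 p₀.2 hp₀.2)
  have hcn : 0 < ‖c‖ := norm_pos_iff.2 hc
  set β : ℝ := m / (2 * ‖c‖) with hβ
  have hβ0 : 0 < β := by positivity
  have hβm : ‖c‖ * β < m := by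
    have : ‖c‖ * β = m / 2 := by rw [hβ]; field_simp
    rw [this]; linarith
  have hβC : (β : ℂ) ≠ 0 := by exact_mod_cast hβ0.ne'
  -- a zero of the perturbed map
  have hzero : ∀ z : ℂ, -(c * (conj (z - s) ^ n - (β : ℂ))) = 0 → conj (z - s) ^ n = (β : ℂ) := by
    intro z hz
    have h3 := neg_eq_zero.1 hz
    exact sub_eq_zero.1 ((mul_eq_zero.1 h3).resolve_left hc)
  refine ⟨{ ρ := ρ, ρ_pos := hρ0, sub := hsub, W := univ, W_open := isOpen_univ,
            W_sub := subset_univ _, κ := fun z => -(c * (conj (z - s) ^ n - (β : ℂ))),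
            smooth := ?_, reg := ?_, zeros := ?_, bdry := ?_ }⟩
  · have h3 : ContDiff ℝ 1 (fun z : ℂ => conj (z - s)) :=
      (Complex.conjCLE : ℂ →L[ℝ] ℂ).contDiff.comp (contDiff_id.sub contDiff_const)
    exact ((contDiff_const.mul ((h3.pow n).sub contDiff_const)).neg).contDiffOn
  · intro z _ hz v hv
    rw [(hasFDeriv_ConeB c β s z n).fderiv] at hv
    have h4 := hzero z hz
    have h5 : conj (z - s) ≠ 0 := by
      intro h0
      rw [h0, zero_pow hn0] at h4
      exact hβC h4.symm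
    have h6 : c * ((n • conj (z - s) ^ (n - 1)) * conj v) = 0 := by
      have h7 : -(c * ((n • conj (z - s) ^ (n - 1)) * conj v)) = 0 := by
        simpa using! hv
      exact neg_eq_zero.1 h7
    have h8 : (n • conj (z - s) ^ (n - 1)) ≠ 0 := by
      rw [nsmul_eq_mul]
      exact mul_ne_zero (by exact_mod_cast hn0) (pow_ne_zero _ h5)
    have h9 : conj v = 0 :=
      (mul_eq_zero.1 ((mul_eq_zero.1 h6).resolve_left hc)).resolve_left h8
    simpa using h9
  · have hinj : Function.Injective fun z : ℂ => conj (z - s) := by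
      intro a b hab
      have := (starRingEnd ℂ).injective hab
      exact sub_left_injective this
    classical
    have himg : (fun z : ℂ => conj (z - s)) '' {z | z ∈ Metric.closedBall (s : ℂ) ρ ∧
        -(c * (conj (z - s) ^ n - (β : ℂ))) = 0} ⊆
        ((Polynomial.nthRoots n (β : ℂ)).toFinset : Set ℂ) := by
      rintro _ ⟨z, ⟨_, hz⟩, rfl⟩
      rw [Finset.mem_coe, Multiset.mem_toFinset, Polynomial.mem_nthRoots (by omega)]
      exact hzero z hz
    rw [← hinj.encard_image]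
    refine (encard_le_encard himg).trans ?_
    rw [encard_coe_eq_coe_finsetCard]
    exact_mod_cast (Multiset.toFinset_card_le _).trans (Polynomial.card_nthRoots n (β : ℂ))
  · intro z hz t ht h0
    have h3 : m ≤ ‖(z - (H (UpperHalfPlane.ofComplex z) : ℂ)) + t •
        (-(c * conj (z - s) ^ n) - (z - (H (UpperHalfPlane.ofComplex z) : ℂ)))‖ :=
      hmin (show (z, t) ∈ Metric.sphere (s : ℂ) ρ ×ˢ Icc (0 : ℝ) 1 from ⟨hz, ht⟩)
    have h4 : (z - (H (UpperHalfPlane.ofComplex z) : ℂ)) + t •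
        (-(c * conj (z - s) ^ n) - (z - (H (UpperHalfPlane.ofComplex z) : ℂ)))
        = - (t • (c * (β : ℂ))) := by
      rw [eq_neg_iff_add_eq_zero, ← h0]
      simp only [Complex.real_smul]
      ring
    rw [h4, norm_neg, norm_smul, norm_mul, Complex.norm_real, Real.norm_eq_abs,
      Real.norm_eq_abs, abs_of_pos hβ0, abs_of_nonneg ht.1] at h3
    have h5 : t * (‖c‖ * β) ≤ 1 * (‖c‖ * β) :=
      mul_le_mul_of_nonneg_right ht.2 (by positivity)
    linarith

end Pool.Agent.ANO.Idx
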