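import Pool.Agent.SmoothDegree.LocalDegree

/-!
# ANO, module B: the signed number of zeros

Homotopy invariance and excision for the signed number of zeros, through a merely continuous map.
-/

set_option autoImplicit false

namespace Pool.Agent.ANO.Idx

open Set Filter Topology
open Pool.Agent.SmoothDegree
open scoped ContDiff

variable {E : Type*} [NormedAddCommGroup E] [NormedSpace ℝ E]

/-- the signed number of zeros of `h` in `U` -/
noncomputable def cnt (h : E → E) (U : Set E) : ℤ := ∑ᶠ x ∈ U ∩ h ⁻¹' {0}, jacobianSign h x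

/-- all zeros of `h` in `U` are nondegenerate -/
def Reg (h : E → E) (U : Set E) : Prop := ∀ x ∈ U, h x = 0 → (fderiv ℝ h x).det ≠ 0

theorem cnt_congr {h h' : E → E} {U : Set E} (H : ∀ x ∈ U, h' =ᶠ[𝓝 x] h) : cnt h' U = cnt h U := by
  unfold cnt
  have hs : U ∩ h' ⁻¹' {0} = U ∩ h ⁻¹' {0} := by
    ext x
    constructor
    · rintro ⟨hx, h0⟩
      refine ⟨hx, ?_⟩
      have := (H x hx).eq_of_nhds
      rw [mem_preimage, mem_singleton_iff] at h0 ⊢
      rw [← this, h0]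
    · rintro ⟨hx, h0⟩
      refine ⟨hx, ?_⟩
      have := (H x hx).eq_of_nhds
      rw [mem_preimage, mem_singleton_iff] at h0 ⊢
      rw [this, h0]
  rw [hs]
  refine finsum_mem_congr rfl fun x hx => ?_
  unfold jacobianSign
  rw [(H x hx.1).fderiv_eq]

theorem Reg.congr {h h' : E → E} {U : Set E} (hr : Reg h U) (H : ∀ x ∈ U, h' =ᶠ[𝓝 x] h) :
    Reg h' U := by
  intro x hx h0
  rw [(H x hx).fderiv_eq]
  exact hr x hx ((H x hx).eq_of_nhds ▸ h0)

variable [FiniteDimensional ℝ E]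

private lemma exists_cut {V : Set E} (hV : IsOpen V) {U : Set E} (hU : IsCompact U) (hUV : U ⊆ V) :
    ∃ χ : E → ℝ, ContDiff ℝ ∞ χ ∧ (∀ x ∈ U, ∀ᶠ y in 𝓝 x, χ y = 1) ∧
      ∀ x ∉ V, ∀ᶠ y in 𝓝 x, χ y = 0 := by
  obtain ⟨K, hK, hUK, hKV⟩ := exists_compact_between hU hV hUV
  obtain ⟨χ, h1, h2, h3, -⟩ := exists_cutoff hU.isClosed hUK
  refine ⟨χ, h1, fun x hx => ?_, fun x hx => ?_⟩
  · exact (eventually_nhdsSet_iff_forall.1 h2) x hx
  · filter_upwards [hK.isClosed.isOpen_compl.mem_nhds (fun h => hx (hKV h))] with y hy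
    exact h3 y hy

theorem exists_ext {h : E → E} {V : Set E} (hV : IsOpen V) (hh : ContDiffOn ℝ 1 h V) {U : Set E}
    (hU : IsCompact U) (hUV : U ⊆ V) :
    ∃ h' : E → E, ContDiff ℝ 1 h' ∧ ∀ x ∈ U, h' =ᶠ[𝓝 x] h := by
  obtain ⟨χ, h1, h2, h3⟩ := exists_cut hV hU hUV
  refine ⟨fun x => χ x • h x, ?_, fun x hx => ?_⟩
  · rw [contDiff_iff_contDiffAt]
    intro x
    by_cases hx : x ∈ V
    · have h4 : ContDiffAt ℝ 1 h x := hh.contDiffAt (hV.mem_nhds hx)
      exact (h1.contDiffAt.of_le (by exact_mod_cast le_top)).smul h4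
    · have h4 : (fun x => χ x • h x) =ᶠ[𝓝 x] fun _ => (0 : E) := by
        filter_upwards [h3 x hx] with y hy
        rw [hy, zero_smul]
      exact contDiffAt_const.congr_of_eventuallyEq h4
  · filter_upwards [h2 x hx] with y hy
    rw [hy, one_smul]

theorem exists_approx {g : E → E} {V : Set E} (hV : IsOpen V) (hg : ContinuousOn g V) {U : Set E}
    (hU : IsCompact U) (hUV : U ⊆ V) {δ : ℝ} (hδ : 0 < δ) :
    ∃ g' : E → E, ContDiff ℝ 1 g' ∧ ∀ x ∈ U, ‖g' x - g x‖ < δ := by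
  obtain ⟨χ, h1, h2, h3⟩ := exists_cut hV hU hUV
  have h4 : Continuous fun x => χ x • g x := by
    rw [continuous_iff_continuousAt]
    intro x
    by_cases hx : x ∈ V
    · exact h1.continuous.continuousAt.smul (hg.continuousAt (hV.mem_nhds hx))
    · have h4 : (fun x => χ x • g x) =ᶠ[𝓝 x] fun _ => (0 : E) := by
        filter_upwards [h3 x hx] with y hy
        rw [hy, zero_smul]
      exact continuousAt_const.congr h4.symm
  obtain ⟨g', h5, h6, -⟩ := h4.exists_contDiff_approx 1 (ε := fun _ => δ) continuous_const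
    fun _ => hδ
  refine ⟨g', by exact_mod_cast h5, fun x hx => ?_⟩
  have h7 := h6 x
  rw [(h2 x hx).self_of_nhds, one_smul, dist_eq_norm] at h7
  exact h7

private lemma lower {f₀ f₁ : E → E} {K V : Set E} (hK : IsCompact K) (hV : IsOpen V) (hKV : K ⊆ V)
    (h0 : ContinuousOn f₀ V) (h1 : ContinuousOn f₁ V)
    (hne : ∀ x ∈ K, ∀ t ∈ Icc (0 : ℝ) 1, f₀ x + t • (f₁ x - f₀ x) ≠ 0) :
    ∃ m > 0, ∀ x ∈ K, ∀ t ∈ Icc (0 : ℝ) 1, m ≤ ‖f₀ x + t • (f₁ x - f₀ x)‖ := by
  rcases K.eq_empty_or_nonempty with h | h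
  · exact ⟨1, one_pos, by simp [h]⟩
  · have hc : IsCompact (K ×ˢ Icc (0:ℝ) 1) := hK.prod isCompact_Icc
    have hcont : ContinuousOn (fun p : E × ℝ => ‖f₀ p.1 + p.2 • (f₁ p.1 - f₀ p.1)‖)
        (K ×ˢ Icc (0:ℝ) 1) := by
      have e0 : ContinuousOn (fun p : E × ℝ => f₀ p.1) (K ×ˢ Icc (0:ℝ) 1) :=
        (h0.mono hKV).comp continuousOn_fst fun p hp => hp.1
      have e1 : ContinuousOn (fun p : E × ℝ => f₁ p.1) (K ×ˢ Icc (0:ℝ) 1) :=
        (h1.mono hKV).comp continuousOn_fst fun p hp => hp.1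
      exact (e0.add (continuousOn_snd.smul (e1.sub e0))).norm
    obtain ⟨p, hp, hmin⟩ := hc.exists_isMinOn (h.prod ⟨0, by simp⟩) hcont
    refine ⟨‖f₀ p.1 + p.2 • (f₁ p.1 - f₀ p.1)‖, norm_pos_iff.2 (hne _ hp.1 _ hp.2), ?_⟩
    intro x hx t ht
    exact hmin (show (x, t) ∈ K ×ˢ Icc (0:ℝ) 1 from ⟨hx, ht⟩)

/-- **Homotopy invariance and excision**, through a continuous map `g`. -/
theorem cnt_eq [Nontrivial E] {U V N W : Set E} {h g k : E → E} (hU : IsCompact U) (hV : IsOpen V)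
    (hUV : U ⊆ V) (hh : ContDiffOn ℝ 1 h V) (hreg : Reg h U) (hg : ContinuousOn g V)
    (hN : IsCompact N) (hNU : N ⊆ interior U) (hW : IsOpen W) (hNW : N ⊆ W)
    (hk : ContDiffOn ℝ 1 k W) (hkreg : Reg k N)
    (h1 : ∀ x ∈ frontier U, ∀ t ∈ Icc (0 : ℝ) 1, h x + t • (g x - h x) ≠ 0)
    (h2 : ∀ x ∈ U, x ∉ interior N → g x ≠ 0)
    (h3 : ∀ x ∈ frontier N, ∀ t ∈ Icc (0 : ℝ) 1, g x + t • (k x - g x) ≠ 0) :
    cnt h U = cnt k N := by
  have hUfr : frontier U ⊆ U := hU.isClosed.frontier_subset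
  have hNfr : frontier N ⊆ N := hN.isClosed.frontier_subset
  have hNU' : N ⊆ U := hNU.trans interior_subset
  obtain ⟨h', hh', hhe⟩ := exists_ext hV hh hU hUV
  obtain ⟨k', hk', hke⟩ := exists_ext hW hk hN hNW
  obtain ⟨m1, hm1, hb1⟩ := lower (hU.of_isClosed_subset isClosed_frontier hUfr) hV
    (hUfr.trans hUV) hh.continuousOn hg h1
  obtain ⟨m3, hm3, hb3⟩ := lower (f₀ := g) (f₁ := k) (V := V ∩ W)
    (hN.of_isClosed_subset isClosed_frontier hNfr) (hV.inter hW)
    (subset_inter (hNfr.trans (hNU'.trans hUV)) (hNfr.trans hNW)) (hg.mono inter_subset_left)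
    (hk.continuousOn.mono inter_subset_right) h3
  obtain ⟨m2, hm2, hb2⟩ := lower (f₀ := g) (f₁ := g) (K := U \ interior N)
    (hU.diff isOpen_interior) hV (diff_subset.trans hUV) hg hg (by
      intro x hx t _
      rw [sub_self, smul_zero, add_zero]
      exact h2 x hx.1 hx.2)
  -- a smooth approximation with zero as a regular value
  obtain ⟨δ, hδ, hδ1, hδ2, hδ3⟩ : ∃ δ : ℝ, 0 < δ ∧ 2 * δ < m1 ∧ 2 * δ < m2 ∧ 2 * δ < m3 := by
    refine ⟨min m1 (min m2 m3) / 3, by positivity, ?_, ?_, ?_⟩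
    · have : min m1 (min m2 m3) ≤ m1 := min_le_left _ _
      linarith
    · have : min m1 (min m2 m3) ≤ m2 := (min_le_right _ _).trans (min_le_left _ _)
      linarith
    · have : min m1 (min m2 m3) ≤ m3 := (min_le_right _ _).trans (min_le_right _ _)
      linarith
  obtain ⟨g₁, hg₁, hga⟩ := exists_approx hV hg hU hUV hδ
  obtain ⟨y, hy, hyδ⟩ := ((frequently_isRegularValue hg₁ 0).and_eventually
    (Metric.ball_mem_nhds (0 : E) hδ)).exists
  have hyn : ‖y‖ < δ := by simpa using hyδ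
  obtain ⟨g₂, hg₂⟩ : ∃ g₂ : E → E, g₂ = fun x => g₁ x - y := ⟨_, rfl⟩
  have hg₂c : ContDiff ℝ 1 g₂ := by
    rw [hg₂]
    exact hg₁.sub contDiff_const
  have hg₂r : ∀ x, g₂ x = 0 → (fderiv ℝ g₂ x).det ≠ 0 := by
    intro x hx
    rw [hg₂] at hx ⊢
    rw [fderiv_sub_const']
    exact hy x (sub_eq_zero.1 hx)
  have hd : ∀ x ∈ U, ‖g₂ x - g x‖ < 2 * δ := by
    intro x hx
    have e : g₂ x - g x = (g₁ x - g x) - y := by
      rw [hg₂]
      exact sub_right_comm _ _ _
    rw [e]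
    calc ‖(g₁ x - g x) - y‖ ≤ ‖g₁ x - g x‖ + ‖y‖ := norm_sub_le _ _
      _ < δ + δ := add_lt_add (hga x hx) hyn
      _ = 2 * δ := by ring
  -- zeros of `g₂` in `U` are in `N`
  have hz : U ∩ g₂ ⁻¹' {0} = N ∩ g₂ ⁻¹' {0} := by
    apply Subset.antisymm
    · rintro x ⟨hx, h0⟩
      refine ⟨?_, h0⟩
      by_contra hxN
      have e := hb2 x ⟨hx, fun h => hxN (interior_subset h)⟩ 0 ⟨le_refl _, zero_le_one⟩
      rw [zero_smul, add_zero] at e
      have e2 := hd x hx
      rw [show g₂ x = 0 from h0, zero_sub, norm_neg] at e2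
      linarith
    · exact inter_subset_inter_left _ hNU'
  have c1 : cnt h' U = cnt g₂ U := by
    refine signed_count_homotopy hh' hg₂c hU ?_ (hreg.congr hhe) (fun x _ => hg₂r x)
    intro x hx t ht h0
    have e1 := hb1 x hx t ht
    have e2 := hd x (hUfr hx)
    have e3 : h x + t • (g x - h x) = -(t • (g₂ x - g x)) := by
      rw [(hhe x (hUfr hx)).eq_of_nhds] at h0
      have : h x + t • (g x - h x) + t • (g₂ x - g x) = h x + t • (g₂ x - h x) := by
        rw [add_assoc, ← smul_add]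
        congr 2
        abel
      rw [h0] at this
      exact eq_neg_of_add_eq_zero_left this
    rw [e3, norm_neg, norm_smul, Real.norm_eq_abs, abs_of_nonneg ht.1] at e1
    have e4 : t * ‖g₂ x - g x‖ ≤ 1 * ‖g₂ x - g x‖ := mul_le_mul_of_nonneg_right ht.2
      (norm_nonneg _)
    linarith
  have c2 : cnt g₂ U = cnt g₂ N := by
    unfold cnt
    rw [hz]
  have c3 : cnt g₂ N = cnt k' N := by
    refine signed_count_homotopy hg₂c hk' hN ?_ (fun x _ => hg₂r x) (hkreg.congr hke)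
    intro x hx t ht h0
    have e1 := hb3 x hx t ht
    have e2 := hd x (hNU' (hNfr hx))
    have e3 : g x + t • (k x - g x) = -((1 - t) • (g₂ x - g x)) := by
      rw [(hke x (hNfr hx)).eq_of_nhds] at h0
      have : g x + t • (k x - g x) + (1 - t) • (g₂ x - g x) = g₂ x + t • (k x - g₂ x) := by
        module
      rw [h0] at this
      exact eq_neg_of_add_eq_zero_left this
    have ht' : 0 ≤ 1 - t := by linarith [ht.2]
    rw [e3, norm_neg, norm_smul, Real.norm_eq_abs, abs_of_nonneg ht'] at e1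
    have e4 : (1 - t) * ‖g₂ x - g x‖ ≤ 1 * ‖g₂ x - g x‖ :=
      mul_le_mul_of_nonneg_right (by linarith [ht.1]) (norm_nonneg _)
    linarith
  rw [← cnt_congr hhe, ← cnt_congr hke, c1, c2, c3]

/-- the set of zeros in a compact set is finite -/
theorem finite_zeros {U V : Set E} {h : E → E} (hU : IsCompact U) (hV : IsOpen V)
    (hUV : U ⊆ V) (hh : ContDiffOn ℝ 1 h V) (hreg : Reg h U) : (U ∩ h ⁻¹' {0}).Finite := by
  obtain ⟨h', hh', hhe⟩ := exists_ext hV hh hU hUV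
  have h1 := finite_preimage hh' hU (y := 0) (hreg.congr hhe)
  have hs : U ∩ h' ⁻¹' {0} = U ∩ h ⁻¹' {0} := by
    ext x
    constructor
    · rintro ⟨hx, h0⟩
      refine ⟨hx, ?_⟩
      have := (hhe x hx).eq_of_nhds
      rw [mem_preimage, mem_singleton_iff] at h0 ⊢
      rw [← this, h0]
    · rintro ⟨hx, h0⟩
      refine ⟨hx, ?_⟩
      have := (hhe x hx).eq_of_nhds
      rw [mem_preimage, mem_singleton_iff] at h0 ⊢
      rw [this, h0]
  rwa [hs] at h1

/-- if all zeros have the same sign then their number is the absolute value of the signed count -/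
theorem ncard_eq_of_sign {U V : Set E} {h : E → E} (hU : IsCompact U) (hV : IsOpen V)
    (hUV : U ⊆ V) (hh : ContDiffOn ℝ 1 h V) (hreg : Reg h U) {σ : ℤ} (hσ : σ.natAbs = 1)
    (hs : ∀ x ∈ U, h x = 0 → jacobianSign h x = σ) :
    (U ∩ h ⁻¹' {0}).ncard = (cnt h U).natAbs := by
  have hf := finite_zeros hU hV hUV hh hreg
  unfold cnt
  rw [finsum_mem_congr rfl (g := fun _ => σ) (fun x hx => hs x hx.1 hx.2),
    finsum_mem_eq_finite_toFinset_sum _ hf, Finset.sum_const, nsmul_eq_mul, Int.natAbs_mul, hσ,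
    mul_one, Int.natAbs_natCast, Set.ncard_eq_toFinset_card _ hf]

omit [FiniteDimensional ℝ E] in
/-- the signed count is at most the number of zeros -/
theorem natAbs_cnt_le {h : E → E} {U : Set E} {n : ℕ} (hf : (U ∩ h ⁻¹' {0}).encard ≤ n) :
    (cnt h U).natAbs ≤ n := by
  have hfin : (U ∩ h ⁻¹' {0}).Finite := Set.finite_of_encard_le_coe hf
  unfold cnt
  rw [finsum_mem_eq_finite_toFinset_sum _ hfin]
  have h1 : hfin.toFinset.card ≤ n := by
    rw [← Set.ncard_eq_toFinset_card _ hfin]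
    rw [← hfin.cast_ncard_eq] at hf
    exact_mod_cast hf
  have h2 : |∑ x ∈ hfin.toFinset, jacobianSign h x| ≤ ∑ _x ∈ hfin.toFinset, (1 : ℤ) := by
    refine (Finset.abs_sum_le_sum_abs _ _).trans (Finset.sum_le_sum fun x _ => ?_)
    unfold jacobianSign
    rcases SignType.sign ((fderiv ℝ h x).det) with _ | _ | _ <;> simp
  rw [Finset.sum_const, nsmul_eq_mul, mul_one, Int.abs_eq_natAbs] at h2
  exact (by exact_mod_cast h2 : _ ≤ hfin.toFinset.card).trans h1

end Pool.Agent.ANO.Idx
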