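import Pool.Agent.ANO.Idx.Calc
import Pool.Agent.ANO.Idx.Count

/-!
# ANO, module B: the number of fixed points (package IDX-DEG)

`T`, `T₀` are maps of `X r k` with `dist (T p) (T₀ p) ≤ C`, `T` is `C¹` and all fixed points of `T`
are nondegenerate with the same sign `σ`; `T₀` is only continuous. `N` is a compact subset of
`dom r k` which contains all fixed points of `T₀` in its interior.

Let `R' > R`, `U = toE '' closedBall p₀ R'` with `R'` so large that `N ⊆ toE '' ball p₀ R'`
(`ofE '' N` is compact, so bounded), which is open (`isOpenEmbedding_toE`), so it is contained in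
`interior U`. `frontier U ⊆ {toE p | dist p p₀ = R'}` (`U` is closed and contains the open set
`toE '' ball p₀ R'`). Apply `cnt_eq` with `V = dom r k`, `h x = x - loc T x`,
`g x = x - loc T₀ x`, `k = κ`:
* `h1`: if `h x + t • (g x - h x) = 0`, `x = toE p ∈ frontier U`, then
  `toE p = toE (T p) + t • (toE (T₀ p) - toE (T p))`, so `dist p (T₀ p) ≤ dist (T p) (T₀ p) ≤ C`
  (`dist_le_of_mid`), `dist p p₀ ≤ R < R'`, a contradiction.
* `h2`: `g (toE p) = 0` means `T₀ p = p`.
The zeros of `h` in `U` are the `toE q` with `T q = q` (all of them: `dist q (T₀ q) ≤ C`, so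
`dist q p₀ ≤ R`). `ncard_eq_of_sign` (and `finite_zeros`) gives the number.
-/

set_option autoImplicit false
set_option linter.unusedSectionVars false

open Set Filter Topology
open Pool.Agent.SmoothDegree
open scoped UpperHalfPlane MatrixGroups

namespace Pool.Agent.ANO.Idx

variable {r k : ℕ}

private theorem zero_iff_Deg (T : X r k → X r k) (q : X r k) :
    toE q - loc T (toE q) = 0 ↔ T q = q := by
  rw [loc_toE, sub_eq_zero]
  constructor
  · intro h
    exact (toE_injective h).symm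
  · intro h
    rw [h]

theorem deg_main [Nontrivial (E r k)] {T T₀ : X r k → X r k}
    (hT : ContDiffOn ℝ 1 (loc T) (dom r k)) (hT₀ : Continuous T₀) {C : ℝ}
    (hC : ∀ p, dist (T p) (T₀ p) ≤ C) {p₀ : X r k} {R : ℝ}
    (hR : ∀ p, dist p (T₀ p) ≤ C → dist p p₀ ≤ R) {σ : ℤ} (hσ : σ.natAbs = 1)
    (hs : ∀ q, T q = q → (fderiv ℝ (fun x => x - loc T x) (toE q)).det ≠ 0 ∧
      jacobianSign (fun x => x - loc T x) (toE q) = σ)
    {N W : Set (E r k)} {κ : E r k → E r k} (hN : IsCompact N) (hNd : N ⊆ dom r k)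
    (hW : IsOpen W) (hNW : N ⊆ W) (hκ : ContDiffOn ℝ 1 κ W) (hκr : Reg κ N)
    (hfix : ∀ w, T₀ w = w → toE w ∈ interior N)
    (h3 : ∀ x ∈ frontier N, ∀ t ∈ Icc (0 : ℝ) 1,
      (x - loc T₀ x) + t • (κ x - (x - loc T₀ x)) ≠ 0) :
    {q | T q = q}.encard = (cnt κ N).natAbs := by
  -- the radius
  have hc1 : IsCompact (ofE '' N) := hN.image_of_continuousOn (continuousOn_ofE.mono hNd)
  obtain ⟨R₁, hR₁⟩ := hc1.isBounded.subset_closedBall p₀
  obtain ⟨R', hR'⟩ : ∃ R' : ℝ, R' = max R R₁ + 1 := ⟨_, rfl⟩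
  have hRR' : R < R' := by
    rw [hR']
    exact (le_max_left _ _).trans_lt (lt_add_one _)
  have hR₁R' : R₁ < R' := by
    rw [hR']
    exact (le_max_right _ _).trans_lt (lt_add_one _)
  obtain ⟨U, hUdef⟩ : ∃ U : Set (E r k), U = toE '' Metric.closedBall p₀ R' := ⟨_, rfl⟩
  have hU : IsCompact U := by
    rw [hUdef]
    exact compact_ball p₀ R'
  have hUV : U ⊆ dom r k := by
    rw [hUdef]
    rintro _ ⟨p, _, rfl⟩
    exact toE_mem p
  have hO : toE '' Metric.ball p₀ R' ⊆ interior U := by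
    refine interior_maximal ?_ (isOpenEmbedding_toE.isOpenMap _ Metric.isOpen_ball)
    rw [hUdef]
    exact image_mono Metric.ball_subset_closedBall
  have hh : ContDiffOn ℝ 1 (fun x => x - loc T x) (dom r k) := contDiff_id.contDiffOn.sub hT
  have hreg : Reg (fun x => x - loc T x) U := by
    intro x hx h0
    rw [hUdef] at hx
    obtain ⟨q, _, rfl⟩ := hx
    exact (hs q ((zero_iff_Deg T q).1 h0)).1
  have hg : ContinuousOn (fun x => x - loc T₀ x) (dom r k) :=
    continuousOn_id.sub (continuousOn_loc hT₀)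
  have hNU : N ⊆ interior U := by
    intro x hx
    refine hO ⟨ofE x, ?_, toE_ofE (hNd hx)⟩
    have h1 := hR₁ (mem_image_of_mem ofE hx)
    rw [Metric.mem_closedBall] at h1
    exact Metric.mem_ball.2 (h1.trans_lt hR₁R')
  have h1 : ∀ x ∈ frontier U, ∀ t ∈ Icc (0 : ℝ) 1,
      (fun x => x - loc T x) x + t • ((fun x => x - loc T₀ x) x - (fun x => x - loc T x) x) ≠ 0 := by
    intro x hx t ht h0
    have hxU : x ∈ U := hU.isClosed.frontier_subset hx
    rw [hUdef] at hxU
    obtain ⟨p, hp, rfl⟩ := hxU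
    beta_reduce at h0
    rw [loc_toE, loc_toE] at h0
    have h2 : toE p = toE (T p) + t • (toE (T₀ p) - toE (T p)) := by
      have h3 : toE p - (toE (T p) + t • (toE (T₀ p) - toE (T p))) =
          toE p - toE (T p) + t • (toE p - toE (T₀ p) - (toE p - toE (T p))) := by
        module
      rw [h0] at h3
      exact sub_eq_zero.1 h3
    have h4 : dist p (T₀ p) ≤ C := (dist_le_of_mid ht h2).trans (hC p)
    have h5 : dist p p₀ < R' := (hR p h4).trans_lt hRR'
    exact hx.2 (hO ⟨p, Metric.mem_ball.2 h5, rfl⟩)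
  have h2 : ∀ x ∈ U, x ∉ interior N → (fun x => x - loc T₀ x) x ≠ 0 := by
    intro x hx hxN h0
    rw [hUdef] at hx
    obtain ⟨p, _, rfl⟩ := hx
    exact hxN (hfix p ((zero_iff_Deg T₀ p).1 h0))
  have hcnt : cnt (fun x => x - loc T x) U = cnt κ N :=
    cnt_eq hU isOpen_dom hUV hh hreg hg hN hNU hW hNW hκ hκr h1 h2 h3
  have hzero : U ∩ (fun x => x - loc T x) ⁻¹' {0} = toE '' {q | T q = q} := by
    ext x
    constructor
    · rintro ⟨hx, h0⟩
      rw [hUdef] at hx
      obtain ⟨q, _, rfl⟩ := hx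
      exact ⟨q, (zero_iff_Deg T q).1 h0, rfl⟩
    · rintro ⟨q, hq, rfl⟩
      refine ⟨?_, (zero_iff_Deg T q).2 hq⟩
      rw [hUdef]
      refine ⟨q, ?_, rfl⟩
      have h4 : dist q (T₀ q) ≤ C := by
        have h5 := hC q
        rwa [show T q = q from hq] at h5
      exact Metric.mem_closedBall.2 ((hR q h4).trans hRR'.le)
  have hfin := finite_zeros hU isOpen_dom hUV hh hreg
  have hn := ncard_eq_of_sign hU isOpen_dom hUV hh hreg hσ (by
    intro x hx h0
    rw [hUdef] at hx
    obtain ⟨q, _, rfl⟩ := hx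
    exact (hs q ((zero_iff_Deg T q).1 h0)).2)
  rw [← toE_injective.encard_image, ← hzero, ← hfin.cast_ncard_eq, hn, hcnt]

end Pool.Agent.ANO.Idx
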