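import Pool.Agent.ANO.Idx.Deck

/-!
# ANO, module B: the form of the lifts of powers of the model (package IDX-MODEL)

`g = (γ_i, v)`, so `H i z = γ_i • f_i^M z`, `B = A^M` (as a linear map of `Fin k → ℝ`,
`Matrix.mulVecLin`, `LinearMap.toContinuousLinearMap`).

* `D (f z) = ε stretch l (D z) + c` gives by induction
  `D (f^M z) = ε^M stretch (l^M) (D z) + c'` (`stretch l (ε w + c) = ε stretch l w + stretch l c`
  for `ε = ± 1`, `stretch l (stretch l' w) = stretch (l l') w`), and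
  `D (γ z) = ε' D z + c''`. `M > 0` gives `1 < l ^ M` (`one_lt_pow₀`).
* `B u = u → u = 0`: the complex matrix `A` has no eigenvalue of modulus `1`, so for every `M`-th
  root of unity `ζ` the matrix `A - ζ` is invertible (`det (ζ - A) = charpoly (ζ) ≠ 0`,
  `Matrix.eval_charpoly` or the definition), and `A^M - 1 = ∏ (A - ζ)`
  (`X_pow_sub_one_eq_prod` with the primitive root `exp (2 π i / M)`, `Polynomial.aeval`), so
  `det (A^M - 1) ≠ 0` over `ℂ`, so over `ℝ`.
-/

set_option autoImplicit false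
set_option linter.unusedSectionVars false

open Set Filter Topology
open scoped UpperHalfPlane MatrixGroups

namespace Pool.Agent.ANO.Idx

variable {r k : ℕ} {S : Fin r → PASurface} {A : Matrix (Fin k) (Fin k) ℤ}

private theorem map_pow_ModelF {R : Type} [CommRing R] (A : Matrix (Fin k) (Fin k) ℤ) (n : ℕ) :
    (A ^ n).map (Int.cast : ℤ → R) = (A.map (Int.cast : ℤ → R)) ^ n :=
  map_pow (Int.castRingHom R).mapMatrix A n

theorem hyperbolic_pow (hA : IsHyperbolicMatrix A) {M : ℕ} (hM : 0 < M) {u : Fin k → ℝ}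
    (hu : ((A ^ M).map (Int.cast : ℤ → ℝ)).mulVec u = u) : u = 0 := by
  set Ac : Matrix (Fin k) (Fin k) ℂ := A.map (Int.cast : ℤ → ℂ) with hAc
  set uc : Fin k → ℂ := fun i => (u i : ℂ) with huc
  have h1 : (Ac ^ M).mulVec uc = uc := by
    funext i
    have h2 := congrFun hu i
    have h3 : (Ac ^ M).mulVec uc i =
        ((((A ^ M).map (Int.cast : ℤ → ℝ)).mulVec u i : ℝ) : ℂ) := by
      rw [hAc, ← map_pow_ModelF]
      simp only [Matrix.mulVec, dotProduct, Matrix.map_apply, huc]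
      push_cast
      rfl
    rw [h3, h2]
  have h2 : (1 : ℂ) ∉ spectrum ℂ (Ac ^ M) := by
    intro h3
    rw [spectrum.map_pow_of_pos Ac hM] at h3
    obtain ⟨z, hz, hz1⟩ := h3
    have h4 := Matrix.mem_spectrum_iff_isRoot_charpoly.1 hz
    refine hA.2 z h4 ?_
    have h5 : ‖z‖ ^ M = 1 := by
      rw [← norm_pow]
      simpa using congrArg norm hz1
    exact (pow_eq_one_iff_of_nonneg (norm_nonneg z) hM.ne').1 h5
  rw [spectrum.notMem_iff, map_one] at h2
  obtain ⟨w, hw⟩ := h2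
  have h3 : (1 - Ac ^ M).mulVec uc = 0 := by
    rw [Matrix.sub_mulVec, Matrix.one_mulVec, h1, sub_self]
  have h4 : uc = 0 := by
    have h5 : ((w⁻¹ : (Matrix (Fin k) (Fin k) ℂ)ˣ) : Matrix (Fin k) (Fin k) ℂ).mulVec
        ((1 - Ac ^ M).mulVec uc) = uc := by
      rw [Matrix.mulVec_mulVec, ← hw, Units.inv_mul, Matrix.one_mulVec]
    rw [← h5, h3, Matrix.mulVec_zero]
  funext i
  have h5 := congrFun h4 i
  exact Complex.ofReal_eq_zero.1 h5

private theorem stretch_add_ModelF (l : ℝ) {ε : ℂ} (hε : ε = 1 ∨ ε = -1) (w c : ℂ) :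
    stretch l (ε * w + c) = ε * stretch l w + stretch l c := by
  rcases hε with rfl | rfl
  · apply Complex.ext <;> simp [stretch] <;> ring
  · apply Complex.ext <;> simp [stretch] <;> ring

private theorem stretch_mul_ModelF (l l' : ℝ) (w : ℂ) :
    stretch l (stretch l' w) = stretch (l * l') w := by
  apply Complex.ext
  · simp only [stretch]
    ring
  · simp only [stretch, mul_inv]
    ring

private theorem mul_sign_ModelF {ε ε' : ℂ} (hε : ε = 1 ∨ ε = -1) (hε' : ε' = 1 ∨ ε' = -1) :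
    ε * ε' = 1 ∨ ε * ε' = -1 := by
  rcases hε with rfl | rfl <;> rcases hε' with rfl | rfl <;> norm_num

private theorem iter_D_ModelF (T : PASurface) (n : ℕ) : ∃ ε c : ℂ, (ε = 1 ∨ ε = -1) ∧
    ∀ z : ℍ, T.D ((T.f^[n] z : ℍ) : ℂ) = ε * stretch (T.l ^ n) (T.D z) + c := by
  induction n with
  | zero =>
    refine ⟨1, 0, Or.inl rfl, fun z => ?_⟩
    have h1 : stretch (T.l ^ 0) (T.D z) = T.D z := by
      apply Complex.ext <;> simp [stretch]
    rw [h1, one_mul, add_zero]
    rfl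
  | succ n ih =>
    obtain ⟨ε, c, hε, h⟩ := ih
    obtain ⟨ε', c', hε', h'⟩ := T.affine
    refine ⟨ε' * ε, ε' * stretch T.l c + c', mul_sign_ModelF hε' hε, fun z => ?_⟩
    rw [Function.iterate_succ_apply', h', h, stretch_add_ModelF _ hε, stretch_mul_ModelF,
      pow_succ' T.l]
    ring

private theorem model_iter_ModelF (n : ℕ) (p : X r k) : (model S A)^[n] p =
    (fun i => (S i).f^[n] (p.1 i), ((A ^ n).map (Int.cast : ℤ → ℝ)).mulVec p.2) := by
  induction n with
  | zero =>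
    have h1 : ((A ^ 0).map (Int.cast : ℤ → ℝ)) = 1 := by
      rw [map_pow_ModelF, pow_zero]
    rw [h1, Matrix.one_mulVec]
    rfl
  | succ n ih =>
    rw [Function.iterate_succ_apply', ih]
    unfold model
    refine Prod.ext ?_ ?_
    · funext i
      exact (Function.iterate_succ_apply' (S i).f n (p.1 i)).symm
    · show (A.map (Int.cast : ℤ → ℝ)).mulVec (((A ^ n).map (Int.cast : ℤ → ℝ)).mulVec p.2) = _
      rw [Matrix.mulVec_mulVec, map_pow_ModelF, map_pow_ModelF, ← pow_succ']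

theorem model_form (hA : IsHyperbolicMatrix A) {M : ℕ} (hM : 0 < M) {g : X r k → X r k}
    (hg : IsDeck S k g) : ∃ (H : Fin r → ℍ → ℍ) (L : Fin r → ℝ) (ε c : Fin r → ℂ)
      (B : (Fin k → ℝ) →L[ℝ] (Fin k → ℝ)) (v : Fin k → ℝ), (∀ i, Continuous (H i)) ∧
      (∀ i, 1 < L i) ∧ (∀ i, ε i = 1 ∨ ε i = -1) ∧
      (∀ i z, (S i).D (H i z) = ε i * stretch (L i) ((S i).D z) + c i) ∧
      (∀ u, B u = u → u = 0) ∧
      ∀ p, g ((model S A)^[M] p) = (fun i => H i (p.1 i), B p.2 + v) := by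
  obtain ⟨γ, v, hγ, hgv⟩ := hg
  have h1 : ∀ i, ∃ ε c : ℂ, (ε = 1 ∨ ε = -1) ∧ ∀ z : ℍ,
      (S i).D ((γ i • (S i).f^[M] z : ℍ) : ℂ) = ε * stretch ((S i).l ^ M) ((S i).D z) + c := by
    intro i
    obtain ⟨ε, c, hε, h⟩ := iter_D_ModelF (S i) M
    obtain ⟨ε', c', hε', h'⟩ := (S i).equivar (γ i) (hγ i)
    refine ⟨ε' * ε, ε' * c + c', mul_sign_ModelF hε' hε, fun z => ?_⟩
    rw [h', h]
    ring
  choose ε c hε hεc using h1
  refine ⟨fun i z => γ i • (S i).f^[M] z, fun i => (S i).l ^ M, ε, c,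
    (Matrix.mulVecLin ((A ^ M).map (Int.cast : ℤ → ℝ))).toContinuousLinearMap,
    fun j => (v j : ℝ), fun i => ?_, fun i => one_lt_pow₀ (S i).one_lt hM.ne', hε, hεc, ?_, ?_⟩
  · have h2 : Continuous fun z : ℍ => (S i).f^[M] z := (S i).f.continuous.iterate M
    exact h2.const_smul (γ i)
  · intro u hu
    exact hyperbolic_pow hA hM hu
  · intro p
    rw [hgv, model_iter_ModelF]
    rfl

end Pool.Agent.ANO.Idx
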