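import Pool.Agent.ANO.Idx.Box

/-!
# ANO, module B: index data for products (package IDX-PROD)

`T₀ p = (H_i (p_i), B p.2 + v)`. Put
`N = {x | (∀ i, x.1 i ∈ closedBall (w.1 i) ρ_i) ∧ x.2 ∈ closedBall w.2 1}`,
`W = {x | ∀ i, x.1 i ∈ W_i}`, `κ x = (fun i => κ_i (x.1 i), x.2 - (B x.2 + v))`.

* `N` is compact (`isCompact_univ_pi`, `IsCompact.prod`), contained in `dom r k` (`Box.sub`) and in
  `W`; its interior contains the product of the open balls.
* `Reg κ N`: `κ` is differentiable at `x ∈ N` with the derivative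
  `v ↦ (fun i => fderiv κ_i (x.1 i) (v.1 i), v.2 - B v.2)`, which is injective if `κ x = 0`;
  `det_ne_zero_of_inj` (`Pool.Agent.SmoothDegree.NullLagrangian`).
* `loc T₀ x = (fun i => H_i (ofComplex (x.1 i)), B x.2 + v)` by definition of `loc`.
* frontier: if `x ∈ frontier N` then `x ∈ N`, and some coordinate `x.1 i` is on the sphere of radius
  `ρ_i` or `dist x.2 w.2 = 1` (otherwise `x` is in the interior). In the first case look at the
  coordinate `i` and use `Box.bdry`; in the second case the second component is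
  `x.2 - (B x.2 + v)` for all `t`; it vanishes only if `x.2 = w.2`.
* zeros: `x.2 = w.2` (as `(1 - B) (x.2 - w.2) = 0`), and `x.1 i` is a zero of `κ_i`; the
  set of zeros of `κ` is the image of a product of sets `Z_i`, `encard Z_i ≤ n_i`
  (`Set.encard_le_coe_iff`, finite sets, `Fintype.piFinset`, `Fintype.card_piFinset`).
-/

set_option autoImplicit false
set_option linter.unusedSectionVars false

open Set Filter Topology
open scoped UpperHalfPlane MatrixGroups

namespace Pool.Agent.ANO.Idx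

variable {r k : ℕ}

private theorem fd_Prod {H : Fin r → ℍ → ℍ} {w : X r k} {n : Fin r → ℕ}
    (b : ∀ i, Box (H i) (w.1 i) (n i)) (B : (Fin k → ℝ) →L[ℝ] (Fin k → ℝ)) (v : Fin k → ℝ)
    {x : E r k} (hx : ∀ i, x.1 i ∈ (b i).W) :
    HasFDerivAt (fun x : E r k => ((fun i => (b i).κ (x.1 i)), x.2 - (B x.2 + v)))
      ((ContinuousLinearMap.pi fun i => (fderiv ℝ (b i).κ (x.1 i)) ∘L
        ((ContinuousLinearMap.proj i : (Fin r → ℂ) →L[ℝ] ℂ) ∘L
          (ContinuousLinearMap.fst ℝ (Fin r → ℂ) (Fin k → ℝ)))).prod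
        (ContinuousLinearMap.snd ℝ (Fin r → ℂ) (Fin k → ℝ) -
          B ∘L (ContinuousLinearMap.snd ℝ (Fin r → ℂ) (Fin k → ℝ)))) x := by
  refine HasFDerivAt.prodMk ?_ ?_
  · refine hasFDerivAt_pi.2 fun i => ?_
    have h1 : HasFDerivAt (b i).κ (fderiv ℝ (b i).κ (x.1 i)) (x.1 i) :=
      (((b i).smooth.contDiffAt ((b i).W_open.mem_nhds (hx i))).differentiableAt
        one_ne_zero).hasFDerivAt
    have h2 : HasFDerivAt (fun x : E r k => x.1 i)
        ((ContinuousLinearMap.proj i : (Fin r → ℂ) →L[ℝ] ℂ) ∘L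
          (ContinuousLinearMap.fst ℝ (Fin r → ℂ) (Fin k → ℝ))) x :=
      ((ContinuousLinearMap.proj i : (Fin r → ℂ) →L[ℝ] ℂ) ∘L
          (ContinuousLinearMap.fst ℝ (Fin r → ℂ) (Fin k → ℝ))).hasFDerivAt
    exact HasFDerivAt.comp (g := (b i).κ) x h1 h2
  · have h3 : HasFDerivAt (fun x : E r k => x.2)
        (ContinuousLinearMap.snd ℝ (Fin r → ℂ) (Fin k → ℝ)) x := hasFDerivAt_snd
    exact h3.sub ((B.hasFDerivAt.comp x h3).add_const v)

theorem prod_box {H : Fin r → ℍ → ℍ} {w : X r k} {n : Fin r → ℕ}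
    (b : ∀ i, Box (H i) (w.1 i) (n i)) {B : (Fin k → ℝ) →L[ℝ] (Fin k → ℝ)} {v : Fin k → ℝ}
    (hB : ∀ u, B u = u → u = 0) (hBw : B w.2 + v = w.2) :
    ∃ (N W : Set (E r k)) (κ : E r k → E r k), IsCompact N ∧ N ⊆ dom r k ∧ IsOpen W ∧ N ⊆ W ∧
      ContDiffOn ℝ 1 κ W ∧ Reg κ N ∧ toE w ∈ interior N ∧
      (∀ x ∈ frontier N, ∀ t ∈ Icc (0 : ℝ) 1,
        (x - loc (fun p : X r k => (fun i => H i (p.1 i), B p.2 + v)) x) +
          t • (κ x - (x - loc (fun p : X r k => (fun i => H i (p.1 i), B p.2 + v)) x)) ≠ 0) ∧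
      (N ∩ κ ⁻¹' {0}).encard ≤ (∏ i, n i : ℕ) ∧
      ((∀ i, (b i).κ (w.1 i) = 0) → κ (toE w) = 0) := by
  classical
  have hfix : ∀ y : Fin k → ℝ, y - (B y + v) = 0 → y = w.2 := by
    intro y hy
    have h1 : B (y - w.2) = y - w.2 := by
      rw [map_sub]
      have h2 : B y = y - v := by
        have := sub_eq_zero.1 hy
        rw [eq_sub_iff_add_eq]
        exact this.symm
      have h3 : B w.2 = w.2 - v := by
        rw [eq_sub_iff_add_eq]
        exact hBw
      rw [h2, h3]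
      abel
    exact sub_eq_zero.1 (hB _ h1)
  set N : Set (E r k) := (Set.univ.pi fun i => Metric.closedBall (w.1 i : ℂ) (b i).ρ) ×ˢ
    Metric.closedBall w.2 1 with hN
  set κ : E r k → E r k := fun x => ((fun i => (b i).κ (x.1 i)), x.2 - (B x.2 + v)) with hκ
  have hNW : ∀ x ∈ N, ∀ i, x.1 i ∈ (b i).W := fun x hx i => (b i).W_sub (hx.1 i (mem_univ i))
  have hint : ∀ x : E r k, (∀ i, x.1 i ∈ Metric.ball (w.1 i : ℂ) (b i).ρ) →
      x.2 ∈ Metric.ball w.2 1 → x ∈ interior N := by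
    intro x hx1 hx2
    rw [hN, interior_prod_eq, interior_pi_set finite_univ]
    exact ⟨fun i _ => Metric.ball_subset_interior_closedBall (hx1 i),
      Metric.ball_subset_interior_closedBall hx2⟩
  have hcomp : IsCompact N :=
    (isCompact_univ_pi fun i => isCompact_closedBall _ _).prod (isCompact_closedBall _ _)
  refine ⟨N, (Set.univ.pi fun i => (b i).W) ×ˢ Set.univ, κ, hcomp,
    fun x hx i => (b i).sub (hx.1 i (mem_univ i)),
    (isOpen_set_pi finite_univ fun i _ => (b i).W_open).prod isOpen_univ,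
    fun x hx => ⟨fun i _ => hNW x hx i, mem_univ _⟩, ?_, ?_, ?_, ?_, ?_, ?_⟩
  · refine ContDiffOn.prodMk (contDiffOn_pi.2 fun i => ?_) ?_
    · refine (b i).smooth.comp (g := (b i).κ) (f := fun x : E r k => x.1 i) ?_ ?_
      · exact ((contDiff_apply ℝ ℂ i).comp contDiff_fst).contDiffOn
      · exact fun x hx => hx.1 i (mem_univ i)
    · exact (contDiff_snd.sub ((B.contDiff.comp contDiff_snd).add contDiff_const)).contDiffOn
  · intro x hx hx0
    rw [(fd_Prod b B v (hNW x hx)).fderiv]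
    refine SmoothDegree.det_ne_zero_of_inj _ fun u hu => ?_
    have h1 := congrArg Prod.fst hu
    have h2 := congrArg Prod.snd hu
    have h3 := congrArg Prod.fst hx0
    have h4 : u.2 - B u.2 = 0 := h2
    refine Prod.ext (funext fun i => ?_) ?_
    · exact (b i).reg (x.1 i) (hx.1 i (mem_univ i)) (congrFun h3 i) (u.1 i) (congrFun h1 i)
    · exact hB _ (sub_eq_zero.1 h4).symm
  · exact hint _ (fun i => Metric.mem_ball_self (b i).ρ_pos) (Metric.mem_ball_self one_pos)
  · intro x hx t ht h0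
    have hxN : x ∈ N := hcomp.isClosed.frontier_subset hx
    refine hx.2 (hint x (fun i => ?_) ?_)
    · have h1 := congrFun (congrArg Prod.fst h0) i
      have h2 : (x.1 i - (H i (UpperHalfPlane.ofComplex (x.1 i)) : ℂ)) +
          t • ((b i).κ (x.1 i) - (x.1 i - (H i (UpperHalfPlane.ofComplex (x.1 i)) : ℂ))) = 0 := h1
      have h3 := hxN.1 i (mem_univ i)
      rw [Metric.mem_ball]
      refine lt_of_le_of_ne (Metric.mem_closedBall.1 h3) fun h4 => ?_
      exact (b i).bdry (x.1 i) (Metric.mem_sphere.2 h4) t ht h2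
    · have h1 : (x.2 - (B x.2 + v)) + t • ((x.2 - (B x.2 + v)) - (x.2 - (B x.2 + v))) = 0 :=
        congrArg Prod.snd h0
      rw [sub_self, smul_zero, add_zero] at h1
      rw [hfix _ h1]
      exact Metric.mem_ball_self one_pos
  · have hfin : ∀ i, {z : ℂ | z ∈ Metric.closedBall (w.1 i : ℂ) (b i).ρ ∧ (b i).κ z = 0}.Finite :=
      fun i => Set.finite_of_encard_le_coe (b i).zeros
    have hsub : N ∩ κ ⁻¹' {0} ⊆ (fun y : Fin r → ℂ => ((y, w.2) : E r k)) ''
        ((Fintype.piFinset fun i => (hfin i).toFinset : Finset (Fin r → ℂ)) :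
          Set (Fin r → ℂ)) := by
      intro x hx
      have hx0 : κ x = 0 := hx.2
      refine ⟨x.1, ?_, ?_⟩
      · rw [Finset.mem_coe, Fintype.mem_piFinset]
        intro i
        rw [Set.Finite.mem_toFinset]
        exact ⟨hx.1.1 i (mem_univ i), congrFun (congrArg Prod.fst hx0) i⟩
      · exact Prod.ext rfl (hfix _ (congrArg Prod.snd hx0)).symm
    refine (Set.encard_le_encard hsub).trans ((Set.encard_image_le _ _).trans ?_)
    rw [Set.encard_coe_eq_coe_finsetCard, Fintype.card_piFinset]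
    refine Nat.cast_le.2 (Finset.prod_le_prod' fun i _ => ?_)
    have h1 := (b i).zeros
    rw [← (hfin i).coe_toFinset, Set.encard_coe_eq_coe_finsetCard] at h1
    exact Nat.cast_le.1 h1
  · intro h0
    exact Prod.ext (funext fun i => h0 i) (sub_eq_zero.2 hBw.symm)

end Pool.Agent.ANO.Idx
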