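import Pool.Agent.ANO.Idx.Box

/-!
# ANO, module B: the index at a regular fixed point (package IDX-REGC)

`D = S.D` is holomorphic near `w` with `D' (w) ≠ 0`, so it has a holomorphic local inverse `E` at
`D w` (`HasStrictDerivAt.to_localInverse`, `HasStrictDerivAt.localInverse`, or
`AnalyticAt` / `ContDiffAt.toOpenPartialHomeomorph` over `ℝ`, `ContDiffAt.to_localInverse`; here it
is enough that `E` is `C¹` over `ℝ`). As `H` is continuous and `H w = w`, for `z` near `w`:
`H z = E (D (H z)) = E (ε stretch L (D z) + c)`. So `z ↦ H z` is `C¹` over `ℝ` in a neighbourhood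
`W` of `w`, and by differentiating `D (H z) = ε stretch L (D z) + c` at `w`:
`D' (w) (H' v) = ε stretch L (D' (w) v)`. If `H' v = v` then `u = D' (w) v` satisfies
`u = ε stretch L u`, i.e. `re u = ± L re u`, `im u = ± L⁻¹ im u`, so `u = 0` and `v = 0`.

Take `κ z = z - H z` on `W`. Its derivative at `w` is injective, so `κ` is injective near `w`
(inverse function theorem), and its derivative is injective near `w` (or: the only zero of `κ` in a
small disc is `w`). Let `ρ` be small. On the circle `κ z ≠ 0` and the homotopy is constant.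
-/

set_option autoImplicit false
set_option linter.unusedSectionVars false

open Set Filter Topology
open scoped UpperHalfPlane MatrixGroups

namespace Pool.Agent.ANO.Idx

private noncomputable def stretchCLM_RegC (L : ℝ) : ℂ →L[ℝ] ℂ :=
  LinearMap.toContinuousLinearMap
    { toFun := stretch L
      map_add' := by
        intro x y
        apply Complex.ext <;> simp [stretch, mul_add]
      map_smul' := by
        intro a x
        apply Complex.ext <;> simp [stretch] <;> ring }

private theorem stretchCLM_apply_RegC (L : ℝ) (z : ℂ) : stretchCLM_RegC L z = stretch L z := rfl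

private theorem fixed_zero_RegC {L : ℝ} (hL : 1 < L) {ε : ℂ} (hε : ε = 1 ∨ ε = -1) {u : ℂ}
    (hu : u = ε * stretch L u) : u = 0 := by
  have hL0 : 0 < L := by linarith
  have hLi : L⁻¹ < 1 := inv_lt_one_of_one_lt₀ hL
  have hLi0 : 0 < L⁻¹ := inv_pos.mpr hL0
  have hre := congrArg Complex.re hu
  have him := congrArg Complex.im hu
  rcases hε with rfl | rfl
  · simp only [one_mul, stretch] at hre him
    have h1 : (L - 1) * u.re = 0 := by linarith
    have h2 : (1 - L⁻¹) * u.im = 0 := by linarith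
    apply Complex.ext
    · rcases mul_eq_zero.mp h1 with h | h
      · linarith
      · simpa using h
    · rcases mul_eq_zero.mp h2 with h | h
      · linarith
      · simpa using h
  · simp only [neg_mul, one_mul, stretch, Complex.neg_re, Complex.neg_im] at hre him
    have h1 : (L + 1) * u.re = 0 := by linarith
    have h2 : (1 + L⁻¹) * u.im = 0 := by linarith
    apply Complex.ext
    · rcases mul_eq_zero.mp h1 with h | h
      · linarith
      · simpa using h
    · rcases mul_eq_zero.mp h2 with h | h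
      · linarith
      · simpa using h

private theorem exists_anti_RegC {f : ℂ →L[ℝ] ℂ} (hf : ∀ v, f v = 0 → v = 0) :
    ∃ C, AntilipschitzWith C f := by
  obtain ⟨K, -, hK⟩ := LinearMap.exists_antilipschitzWith (f : ℂ →ₗ[ℝ] ℂ)
    (LinearMap.ker_eq_bot'.mpr hf)
  exact ⟨K, hK⟩

theorem reg_smooth (S : FlatSurface) {w : ℍ} (hw : deriv S.D w ≠ 0) {H : ℍ → ℍ}
    (hHc : Continuous H) (hHw : H w = w) {L : ℝ} (hL : 1 < L) {ε c : ℂ}
    (hε : ε = 1 ∨ ε = -1) (hH : ∀ z : ℍ, S.D (H z) = ε * stretch L (S.D z) + c) :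
    ∃ W : Set ℂ, IsOpen W ∧ (w : ℂ) ∈ W ∧ W ⊆ {z : ℂ | 0 < z.im} ∧
      ContDiffOn ℝ 1 (fun z : ℂ => (H (UpperHalfPlane.ofComplex z) : ℂ)) W ∧
      ∀ v, fderiv ℝ (fun z : ℂ => (H (UpperHalfPlane.ofComplex z) : ℂ)) w v = v → v = 0 := by
  set h : ℂ → ℂ := fun z : ℂ => (H (UpperHalfPlane.ofComplex z) : ℂ) with hh
  have hwim : 0 < (w : ℂ).im := w.im_pos
  have hopen : IsOpen {z : ℂ | 0 < z.im} := isOpen_lt continuous_const Complex.continuous_im
  have hmem : {z : ℂ | 0 < z.im} ∈ 𝓝 (w : ℂ) := hopen.mem_nhds hwim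
  -- `h` is continuous at `w`
  have hhw : h w = w := by simp [hh, hHw]
  have hhcont : ContinuousAt h w := by
    have h1 : ContinuousAt (fun z : ℂ => UpperHalfPlane.ofComplex z) (w : ℂ) :=
      (UpperHalfPlane.contMDiffAt_ofComplex (n := 0) hwim).continuousAt
    have h2 : Continuous fun z : ℍ => (H z : ℂ) := UpperHalfPlane.continuous_coe.comp hHc
    exact h2.continuousAt.comp (f := fun z : ℂ => UpperHalfPlane.ofComplex z) h1
  -- `D` over `ℂ` and over `ℝ`
  have hDan : AnalyticAt ℂ S.D w := S.holo.analyticAt hmem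
  have hDc : ContDiffAt ℝ 1 S.D w := (hDan.contDiffAt (n := 1)).restrict_scalars ℝ
  have hDder : HasDerivAt S.D (deriv S.D w) w := hDan.differentiableAt.hasDerivAt
  have hDf : HasFDerivAt S.D (fderiv ℝ S.D w) (w : ℂ) :=
    (hDc.differentiableAt (by norm_num)).hasFDerivAt
  have hDapp : ∀ v, fderiv ℝ S.D w v = deriv S.D w * v := by
    intro v
    have h1 : HasFDerivAt S.D ((ContinuousLinearMap.toSpanSingleton ℂ
      (deriv S.D w)).restrictScalars ℝ) (w : ℂ) := hDder.hasFDerivAt.restrictScalars ℝ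
    rw [h1.fderiv]
    simp [mul_comm]
  have hinj : ∀ v, fderiv ℝ S.D w v = 0 → v = 0 := by
    intro v hv
    rw [hDapp] at hv
    exact (mul_eq_zero.mp hv).resolve_left hw
  -- the equivalence
  let eL : ℂ ≃ₗ[ℝ] ℂ := LinearEquiv.ofInjectiveEndo (fderiv ℝ S.D w : ℂ →ₗ[ℝ] ℂ)
    (LinearMap.ker_eq_bot.mp (LinearMap.ker_eq_bot'.mpr hinj))
  let eC : ℂ ≃L[ℝ] ℂ := eL.toContinuousLinearEquiv
  have heC : (eC : ℂ →L[ℝ] ℂ) = fderiv ℝ S.D w := by
    ext v
    rfl
  have hDf' : HasFDerivAt S.D (eC : ℂ →L[ℝ] ℂ) (w : ℂ) := by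
    rw [heC]
    exact hDf
  have hDs : HasStrictFDerivAt S.D (eC : ℂ →L[ℝ] ℂ) (w : ℂ) :=
    hDc.hasStrictFDerivAt' hDf' one_ne_zero
  set E : ℂ → ℂ := hDc.localInverse hDf' one_ne_zero with hE
  have hEc : ContDiffAt ℝ 1 E (S.D w) := hDc.to_localInverse hDf' one_ne_zero
  have hEinv : ∀ᶠ z in 𝓝 (w : ℂ), E (S.D z) = z := hDs.eventually_left_inverse
  -- near `w` the map `h` is the smooth map
  have hfun : ∀ᶠ z in 𝓝 (w : ℂ), S.D (h z) = ε * stretch L (S.D z) + c := by
    filter_upwards [hmem] with z hz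
    have h1 := hH (UpperHalfPlane.ofComplex z)
    rw [UpperHalfPlane.ofComplex_apply_of_im_pos hz] at h1
    simp only [hh]
    rw [UpperHalfPlane.ofComplex_apply_of_im_pos hz]
    exact h1
  have hDw : ε * stretch L (S.D w) + c = S.D w := by
    have := hH w
    rw [hHw] at this
    exact this.symm
  have hheq : h =ᶠ[𝓝 (w : ℂ)] fun z => E (ε * stretch L (S.D z) + c) := by
    have h1 : ∀ᶠ z in 𝓝 (w : ℂ), E (S.D (h z)) = h z := by
      have : Tendsto h (𝓝 (w : ℂ)) (𝓝 (w : ℂ)) := by
        have := hhcont.tendsto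
        rwa [hhw] at this
      exact this.eventually hEinv
    filter_upwards [h1, hfun] with z hz1 hz2
    rw [← hz1, hz2]
  have hsm : ContDiffAt ℝ 1 (fun z => ε * stretch L (S.D z) + c) (w : ℂ) := by
    have h1 : ContDiffAt ℝ 1 (fun z => stretch L (S.D z)) (w : ℂ) :=
      (stretchCLM_RegC L).contDiff.contDiffAt.comp (w : ℂ) hDc
    exact (contDiffAt_const.mul h1).add contDiffAt_const
  have hcd : ContDiffAt ℝ 1 h (w : ℂ) := by
    have h1 : ContDiffAt ℝ 1 (fun z => E (ε * stretch L (S.D z) + c)) (w : ℂ) := by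
      have h2 : ContDiffAt ℝ 1 E (ε * stretch L (S.D w) + c) := by
        rw [hDw]
        exact hEc
      exact h2.comp (w : ℂ) hsm
    exact h1.congr_of_eventuallyEq hheq
  have hev : ∀ᶠ z in 𝓝 (w : ℂ), ContDiffAt ℝ 1 h z := hcd.eventually (by simp)
  obtain ⟨W, hWsub, hWo, hwW⟩ := mem_nhds_iff.mp (inter_mem hev hmem)
  refine ⟨W, hWo, hwW, fun z hz => (hWsub hz).2,
    fun z hz => ContDiffAt.contDiffWithinAt (show ContDiffAt ℝ 1 h z from (hWsub hz).1), ?_⟩
  intro v hv
  have hhd : HasFDerivAt h (fderiv ℝ h w) (w : ℂ) :=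
    (hcd.differentiableAt (by norm_num)).hasFDerivAt
  have hDd : HasFDerivAt S.D (fderiv ℝ S.D w) (h w) := by
    rw [hhw]
    exact hDf
  have hl : HasFDerivAt (fun z => S.D (h z)) ((fderiv ℝ S.D w).comp (fderiv ℝ h w)) (w : ℂ) :=
    hDd.comp (w : ℂ) hhd
  have hr : HasFDerivAt (fun z => ε * stretch L (S.D z) + c)
      (ε • ((stretchCLM_RegC L).comp (fderiv ℝ S.D w))) (w : ℂ) := by
    have h1 : HasFDerivAt (fun z => stretch L (S.D z))
        ((stretchCLM_RegC L).comp (fderiv ℝ S.D w)) (w : ℂ) :=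
      (stretchCLM_RegC L).hasFDerivAt.comp (w : ℂ) hDf
    exact (h1.const_mul ε).add_const c
  have hll := hl.congr_of_eventuallyEq
    (f₁ := fun z => ε * stretch L (S.D z) + c)
    (by filter_upwards [hfun] with z hz using hz.symm)
  have hu := hll.unique hr
  have huv := congrArg (fun T : ℂ →L[ℝ] ℂ => T v) hu
  simp only [ContinuousLinearMap.comp_apply, smul_apply, smul_eq_mul,
    stretchCLM_apply_RegC] at huv
  rw [hv] at huv
  exact hinj v (fixed_zero_RegC hL hε huv)

theorem reg_box (S : FlatSurface) {w : ℍ} (hw : deriv S.D w ≠ 0) {H : ℍ → ℍ}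
    (hHc : Continuous H) (hHw : H w = w) {L : ℝ} (hL : 1 < L) {ε c : ℂ}
    (hε : ε = 1 ∨ ε = -1) (hH : ∀ z : ℍ, S.D (H z) = ε * stretch L (S.D z) + c) :
    ∃ b : Box H w 1, b.κ w = 0 := by
  obtain ⟨W, hWo, hwW, hWim, hcd, hfix⟩ := reg_smooth S hw hHc hHw hL hε hH
  set h : ℂ → ℂ := fun z : ℂ => (H (UpperHalfPlane.ofComplex z) : ℂ) with hh
  have hhw : h w = w := by simp [hh, hHw]
  have hcdw : ContDiffAt ℝ 1 h (w : ℂ) := hcd.contDiffAt (hWo.mem_nhds hwW)
  have hhd : HasFDerivAt h (fderiv ℝ h w) (w : ℂ) :=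
    (hcdw.differentiableAt (by norm_num)).hasFDerivAt
  have hκd : HasFDerivAt (fun z => z - h z) (ContinuousLinearMap.id ℝ ℂ - fderiv ℝ h w)
      (w : ℂ) := (hasFDerivAt_id (w : ℂ)).sub hhd
  have hinj : ∀ v, (ContinuousLinearMap.id ℝ ℂ - fderiv ℝ h w) v = 0 → v = 0 := by
    intro v hv
    simp only [sub_apply, ContinuousLinearMap.id_apply] at hv
    exact hfix v (sub_eq_zero.mp hv).symm
  have hne : ∀ᶠ z in 𝓝[≠] (w : ℂ), z - h z ≠ 0 := hκd.eventually_ne (exists_anti_RegC hinj)
  rw [eventually_nhdsWithin_iff] at hne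
  obtain ⟨ρ, hρ, hball⟩ := Metric.nhds_basis_closedBall.mem_iff.mp
    (inter_mem hne (hWo.mem_nhds hwW))
  have hzero : ∀ z ∈ Metric.closedBall (w : ℂ) ρ, z - h z = 0 → z = w := by
    intro z hz h0
    by_contra hzw
    exact (hball hz).1 hzw h0
  refine ⟨{ ρ := ρ
            ρ_pos := hρ
            sub := fun z hz => hWim (hball hz).2
            W := W
            W_open := hWo
            W_sub := fun z hz => (hball hz).2
            κ := fun z => z - h z
            smooth := (_root_.contDiffOn_id (𝕜 := ℝ) (n := 1) (s := W)).sub hcd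
            reg := ?_
            zeros := ?_
            bdry := ?_ }, ?_⟩
  · intro z hz h0 v hv
    have hzw := hzero z hz h0
    subst hzw
    rw [hκd.fderiv] at hv
    exact hinj v hv
  · refine le_trans (Set.encard_le_encard (t := {(w : ℂ)}) ?_) ?_
    · rintro z ⟨hz, h0⟩
      exact hzero z hz h0
    · simp
  · intro z hz t _
    have hzne : z ≠ w := by
      rintro rfl
      simp at hz
      linarith
    have hn : z - h z ≠ 0 := fun h0 => hzne (hzero z (Metric.sphere_subset_closedBall hz) h0)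
    simpa [hh] using hn
  · show (w : ℂ) - h w = 0
    rw [hhw, sub_self]

end Pool.Agent.ANO.Idx
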