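import Pool.Agent.ANO.Idx.Sgn
import Pool.Agent.ANO.Idx.Near
import Pool.Agent.ANO.Idx.Bdd
import Pool.Agent.ANO.Idx.Deg
import Pool.Agent.ANO.Idx.ModelF
import Pool.Agent.ANO.Idx.RegC
import Pool.Agent.ANO.Idx.ConeB
import Pool.Agent.ANO.Idx.Prod

/-!
# ANO, module B: the three statements
-/

set_option autoImplicit false
set_option linter.unusedSectionVars false

open Set Filter Topology
open Pool.Agent.SmoothDegree
open scoped UpperHalfPlane MatrixGroups

namespace Pool.Agent.ANO.Idx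

variable {r k : ℕ} {S : Fin r → PASurface} {A : Matrix (Fin k) (Fin k) ℤ}

/-- the number of fixed points of a lift of a power of the Anosov map -/
theorem count_fix [Nontrivial (E r k)] (G : Geom S A) {F : X r k ≃ₜ X r k}
    (hF : IsAnosovLift S F) {M M0 : ℕ} (hM : 0 < M) (hM0 : 0 < M0)
    (hH : Homotopic S (model S A)^[M0] (F ^ M : X r k ≃ₜ X r k)) {g : X r k → X r k}
    (hg : IsDeck S k g) {N W : Set (E r k)} {κ : E r k → E r k} (hN : IsCompact N)
    (hNd : N ⊆ dom r k) (hW : IsOpen W) (hNW : N ⊆ W) (hκ : ContDiffOn ℝ 1 κ W)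
    (hκr : Reg κ N) (hfix : ∀ w, g ((model S A)^[M0] w) = w → toE w ∈ interior N)
    (h3 : ∀ x ∈ frontier N, ∀ t ∈ Icc (0 : ℝ) 1,
      (x - loc (g ∘ (model S A)^[M0]) x) + t • (κ x - (x - loc (g ∘ (model S A)^[M0]) x)) ≠ 0) :
    {q | g ((F ^ M) q) = q}.encard = (cnt κ N).natAbs := by
  obtain ⟨σ, hσ, hs⟩ := exists_sign hF hM hg
  have hcm : Continuous (model S A)^[M0] := (model_continuous S A).iterate M0
  have hcT : Continuous (g ∘ (model S A)^[M0]) := (deck_continuous hg).comp hcm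
  obtain ⟨C, hC⟩ := near hH hcm (F ^ M).continuous
  have hC' : ∀ p, dist ((g ∘ (F ^ M : X r k ≃ₜ X r k)) p) ((g ∘ (model S A)^[M0]) p) ≤ C := by
    intro p
    show dist (g ((F ^ M) p)) (g ((model S A)^[M0] p)) ≤ C
    rw [deck_dist hg]
    exact hC p
  obtain ⟨R, hR⟩ := model_bdd G hM0 hg C
  obtain ⟨p₀, R₀, hR₀⟩ : ∃ (p₀ : X r k) (R₀ : ℝ), ∀ p, dist p ((g ∘ (model S A)^[M0]) p) ≤ C →
      dist p p₀ ≤ R₀ := by
    by_cases hne : ∃ p₀ : X r k, dist p₀ ((g ∘ (model S A)^[M0]) p₀) ≤ C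
    · obtain ⟨p₀, hp₀⟩ := hne
      exact ⟨p₀, R, fun p hp => hR p p₀ hp hp₀⟩
    · exact ⟨(fun _ => UpperHalfPlane.I, 0), 0, fun p hp => absurd ⟨p, hp⟩ hne⟩
  exact deg_main (contDiffOn_T hF M hg) hcT hC' hR₀ hσ hs hN hNd hW hNW hκ hκr hfix h3

theorem nontrivial_E (h : ¬ (r = 0 ∧ k = 0)) : Nontrivial (E r k) := by
  by_cases hr : r = 0
  · have hk : 0 < k := Nat.pos_of_ne_zero fun hk => h ⟨hr, hk⟩
    have : Nonempty (Fin k) := ⟨⟨0, hk⟩⟩
    infer_instance
  · have : Nonempty (Fin r) := ⟨⟨0, Nat.pos_of_ne_zero hr⟩⟩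
    infer_instance

theorem subsingleton_X (h : r = 0 ∧ k = 0) : Subsingleton (X r k) := by
  obtain ⟨rfl, rfl⟩ := h
  infer_instance

theorem index : IndexStatement := by
  intro r k S A G hA F hF M M0 hM hM0 hH g hg q hq
  by_cases h0 : r = 0 ∧ k = 0
  · have := subsingleton_X h0
    exact ⟨q, Subsingleton.elim _ _⟩
  have := nontrivial_E h0
  by_contra hcon
  push Not at hcon
  have h1 := count_fix G hF hM hM0 hH hg (N := ∅) (W := ∅) (κ := fun x => x) isCompact_empty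
    (empty_subset _) isOpen_empty (empty_subset _) contDiffOn_empty (fun x hx => hx.elim)
    (fun w hw => absurd hw (hcon w)) (fun x hx => by simp at hx)
  have h2 : cnt (fun x : E r k => x) ∅ = 0 := by
    unfold cnt
    rw [empty_inter, finsum_mem_empty]
  rw [h2, Int.natAbs_zero, Nat.cast_zero, encard_eq_zero] at h1
  exact (h1 ▸ (show q ∈ {q | g ((F ^ M) q) = q} from hq) : q ∈ (∅ : Set (X r k)))

/-- the data for the product -/
theorem count_fix_box [Nontrivial (E r k)] (G : Geom S A) (hA : IsHyperbolicMatrix A)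
    {F : X r k ≃ₜ X r k}
    (hF : IsAnosovLift S F) {M M0 : ℕ} (hM : 0 < M) (hM0 : 0 < M0)
    (hH : Homotopic S (model S A)^[M0] (F ^ M : X r k ≃ₜ X r k)) {g : X r k → X r k}
    (hg : IsDeck S k g) {w : X r k} (hw : g ((model S A)^[M0] w) = w) (P : Fin r → Prop)
    (n : Fin r → ℕ)
    (hb : ∀ i (H : ℍ → ℍ) (L : ℝ) (ε c : ℂ), (∀ p, (g ((model S A)^[M0] p)).1 i = H (p.1 i)) →
      Continuous H → H (w.1 i) = w.1 i → 1 < L → (ε = 1 ∨ ε = -1) →
      (∀ z : ℍ, (S i).D (H z) = ε * stretch L ((S i).D z) + c) →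
      ∃ b : Box H (w.1 i) (n i), P i → b.κ (w.1 i) = 0) :
    ∃ (N : Set (E r k)) (κ : E r k → E r k),
      {q | g ((F ^ M) q) = q}.encard = (cnt κ N).natAbs ∧ Reg κ N ∧
      (N ∩ κ ⁻¹' {0}).encard ≤ (∏ i, n i : ℕ) ∧
      ((∀ i, P i) → toE w ∈ N ∧ κ (toE w) = 0) := by
  obtain ⟨H, L, ε, c, B, v, hHc, hL, hε, hD, hB, hform⟩ := model_form hA hM0 hg
  have hwf := hw
  rw [hform] at hwf
  have hH1 : ∀ i, H i (w.1 i) = w.1 i := fun i => congrFun (congrArg Prod.fst hwf) i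
  have hBw : B w.2 + v = w.2 := congrArg Prod.snd hwf
  choose b hbz using fun i => hb i (H i) (L i) (ε i) (c i) (fun p => by rw [hform])
    (hHc i) (hH1 i) (hL i) (hε i) (hD i)
  obtain ⟨N, W, κ, hN, hNd, hW, hNW, hκ, hκr, hwN, h3, hz, hκw⟩ := prod_box b hB hBw
  have hT₀ : (g ∘ (model S A)^[M0]) = fun p : X r k => (fun i => H i (p.1 i), B p.2 + v) := by
    funext p
    exact hform p
  refine ⟨N, κ, ?_, hκr, hz, fun hP => ⟨interior_subset hwN, hκw fun i => hbz i (hP i)⟩⟩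
  refine count_fix G hF hM hM0 hH hg hN hNd hW hNW hκ hκr (fun w' hw' => ?_) ?_
  · rw [model_fix_unique G hM0 hg hw' hw]
    exact hwN
  · rw [hT₀]
    exact h3

theorem regular : RegularStatement := by
  intro r k S A G hA F hF M M0 hM hM0 hH g hg w hw hreg
  by_cases h0 : r = 0 ∧ k = 0
  · have := subsingleton_X h0
    exact ⟨w, Subsingleton.elim _ _⟩
  have := nontrivial_E h0
  obtain ⟨N, κ, hcard, hκr, hz, hκw⟩ := count_fix_box G hA hF hM hM0 hH hg hw (fun _ => True)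
    (fun _ => 1) (fun i H L ε c _ hHc hHw hL hε hD => by
      obtain ⟨b, hb⟩ := reg_box (S i).toFlatSurface (hreg i) hHc hHw hL hε hD
      exact ⟨b, fun _ => hb⟩)
  obtain ⟨hwN, hκ0⟩ := hκw fun _ => trivial
  have h1 : N ∩ κ ⁻¹' {0} = {toE w} := by
    have h2 : (N ∩ κ ⁻¹' {0}).encard ≤ 1 := by simpa using hz
    rw [encard_le_one_iff] at h2
    ext x
    constructor
    · intro hx
      exact h2 x (toE w) hx ⟨hwN, hκ0⟩
    · rintro rfl
      exact ⟨hwN, hκ0⟩
  have h2 : cnt κ N ≠ 0 := by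
    unfold cnt
    rw [h1, finsum_mem_singleton]
    unfold jacobianSign
    have h3 := hκr _ hwN hκ0
    rcases lt_or_gt_of_ne h3 with h | h
    · rw [sign_neg h]
      decide
    · rw [sign_pos h]
      decide
  by_contra hcon
  push Not at hcon
  have h3 : {q | g ((F ^ M) q) = q} = ∅ := by
    ext q
    simp [hcon q]
  rw [h3, encard_empty] at hcard
  have h4 : (cnt κ N).natAbs = 0 := by exact_mod_cast hcard.symm
  exact h2 (Int.natAbs_eq_zero.1 h4)

theorem count : CountStatement := by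
  intro r k S A G hA F hF M M0 hM hM0 hH g hg w hw κ hκ2 i0 H₀ hcoord hreg hcone
  have : Nontrivial (E r k) := nontrivial_E fun h => by
    have := i0.2
    omega
  obtain ⟨N, κ', hcard, hκr, hz, -⟩ := count_fix_box G hA hF hM hM0 hH hg hw (fun _ => False)
    (fun i => if i = i0 then 2 * κ - 1 else 1) (fun i H L ε c hHi hHc hHw hL hε hD => by
      by_cases hi : i = i0
      · subst hi
        have hHH : H = H₀ := by
          funext z
          have h1 := hHi (Function.update w.1 i z, w.2)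
          rw [hcoord] at h1
          simpa using h1.symm
        obtain ⟨b⟩ := cone_box (S i).toFlatSurface hκ2 hcone
        rw [if_pos rfl, hHH]
        exact ⟨b, fun h => h.elim⟩
      · obtain ⟨b, -⟩ := reg_box (S i).toFlatSurface (hreg i hi) hHc hHw hL hε hD
        rw [if_neg hi]
        exact ⟨b, fun h => h.elim⟩)
  have h1 : ∏ i : Fin r, (if i = i0 then 2 * κ - 1 else 1) = 2 * κ - 1 := by
    rw [Finset.prod_ite_eq']
    simp
  rw [h1] at hz
  rw [hcard]
  exact_mod_cast natAbs_cnt_le hz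

end Pool.Agent.ANO.Idx
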