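import Pool.Agent.ANO.Idx.Deck

/-!
# ANO, module B: powers of the Anosov map (package IDX-ANOA)

* `pow_inv`: induction on `n`, `F ^ (n + 1) = F ∘ F ^ n`, `tmap_comp`.
* `exists_deck_pow`: induction on `n`. `F^M` normalises the deck group (induction on `M`), so
  `g F^M g_n F^(M n) = g (F^M g_n) F^(M n) = g g' F^M F^(M n)`.
* `tnorm_equiv`: `tnorm p v = ‖(fun i => (im p_i)⁻¹ v_i, v.2)‖`, and `v ↦ (fun i => (im p_i)⁻¹ v_i,
  v.2)` is an invertible linear map of a finite dimensional space (or estimate directly with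
  `pi_norm_le_iff`, `Prod.norm_def`, `norm_mul`).
* `unstable_pow`: put `v' = tmap (F ^ n) p v`. Then `P (F^n p) v' = v'` (`pow_inv`), and
  `tmap (F ^ n).symm (F^n p) v' = v` (`tmap_comp` for `(F ^ n).symm ∘ F ^ n = id`). Apply the
  hypothesis `h` at the point `F^n p` and the vector `v'`.
* `det_tmap`: the derivative of `(F ^ n).symm ∘ F ^ n = id`.
-/

set_option autoImplicit false
set_option linter.unusedSectionVars false

open Set Filter Topology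
open scoped UpperHalfPlane MatrixGroups

namespace Pool.Agent.ANO.Idx

variable {r k : ℕ} {S : Fin r → PASurface} {F : X r k ≃ₜ X r k}

private theorem pow_succ_AnoA (n : ℕ) :
    ((F ^ (n + 1) : X r k ≃ₜ X r k) : X r k → X r k) = F ∘ (F ^ n : X r k ≃ₜ X r k) := by
  rw [pow_succ']
  rfl

private theorem pow_zero_AnoA : ((F ^ 0 : X r k ≃ₜ X r k) : X r k → X r k) = id := by
  rw [pow_zero]
  rfl

private theorem pow_add_AnoA (m n : ℕ) :
    ((F ^ (m + n) : X r k ≃ₜ X r k) : X r k → X r k) =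
      (F ^ m : X r k ≃ₜ X r k) ∘ (F ^ n : X r k ≃ₜ X r k) := by
  rw [pow_add]
  rfl

theorem pow_inv (h1 : ContDiffOn ℝ 1 (loc F) (dom r k))
    {P : X r k → (E r k →L[ℝ] E r k)} (hP : ∀ p, P (F p) ∘L tmap F p = tmap F p ∘L P p)
    (n : ℕ) (p : X r k) : P ((F ^ n) p) ∘L tmap (F ^ n : X r k ≃ₜ X r k) p =
      tmap (F ^ n : X r k ≃ₜ X r k) p ∘L P p := by
  induction n with
  | zero =>
    have h0 : (F ^ 0 : X r k ≃ₜ X r k) p = p := congrFun pow_zero_AnoA p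
    rw [h0, pow_zero_AnoA, tmap_id]
    rfl
  | succ n ih =>
    have h0 : (F ^ (n + 1) : X r k ≃ₜ X r k) p = F ((F ^ n : X r k ≃ₜ X r k) p) :=
      congrFun (pow_succ_AnoA n) p
    rw [h0, pow_succ_AnoA, tmap_comp h1 (contDiffOn_pow h1 n), ← ContinuousLinearMap.comp_assoc,
      hP, ContinuousLinearMap.comp_assoc, ih, ContinuousLinearMap.comp_assoc]

private theorem norm_pow_AnoA
    (hN : ∀ g, IsDeck S k g → ∃ g', IsDeck S k g' ∧ F ∘ g = g' ∘ F) (M : ℕ)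
    {g : X r k → X r k} (hg : IsDeck S k g) :
    ∃ g', IsDeck S k g' ∧ (F ^ M : X r k ≃ₜ X r k) ∘ g = g' ∘ (F ^ M : X r k ≃ₜ X r k) := by
  induction M with
  | zero =>
    refine ⟨g, hg, ?_⟩
    rw [pow_zero_AnoA]
    rfl
  | succ M ih =>
    obtain ⟨g', hg', h1⟩ := ih
    obtain ⟨g'', hg'', h2⟩ := hN g' hg'
    refine ⟨g'', hg'', ?_⟩
    rw [pow_succ_AnoA, Function.comp_assoc, h1, ← Function.comp_assoc, h2, Function.comp_assoc]

theorem exists_deck_pow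
    (hN : ∀ g, IsDeck S k g → ∃ g', IsDeck S k g' ∧ F ∘ g = g' ∘ F) (M : ℕ)
    {g : X r k → X r k} (hg : IsDeck S k g) (n : ℕ) :
    ∃ g', IsDeck S k g' ∧ (g ∘ (F ^ M : X r k ≃ₜ X r k))^[n] = g' ∘ (F ^ (M * n) : X r k ≃ₜ X r k)
    := by
  induction n with
  | zero =>
    refine ⟨id, deck_id, ?_⟩
    rw [Nat.mul_zero, pow_zero_AnoA]
    rfl
  | succ n ih =>
    obtain ⟨g', hg', h1⟩ := ih
    obtain ⟨g'', hg'', h2⟩ := norm_pow_AnoA hN M hg'
    refine ⟨g ∘ g'', deck_comp hg hg'', ?_⟩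
    have h3 : M * (n + 1) = M + M * n := by ring
    rw [Function.iterate_succ', h1, h3, pow_add_AnoA]
    calc (g ∘ (F ^ M : X r k ≃ₜ X r k)) ∘ (g' ∘ (F ^ (M * n) : X r k ≃ₜ X r k))
        = g ∘ ((F ^ M : X r k ≃ₜ X r k) ∘ g') ∘ (F ^ (M * n) : X r k ≃ₜ X r k) := rfl
      _ = g ∘ (g'' ∘ (F ^ M : X r k ≃ₜ X r k)) ∘ (F ^ (M * n) : X r k ≃ₜ X r k) := by rw [h2]
      _ = _ := rfl

private theorem norm_le_AnoA {v : E r k} {C : ℝ} (hC : 0 ≤ C) (h1 : ∀ i, ‖v.1 i‖ ≤ C)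
    (h2 : ‖v.2‖ ≤ C) : ‖v‖ ≤ C := by
  rw [Prod.norm_def]
  exact max_le ((pi_norm_le_iff_of_nonneg hC).2 h1) h2

theorem tnorm_equiv (p : X r k) : ∃ a b : ℝ, 0 < a ∧ 0 < b ∧
    ∀ v : E r k, a * ‖v‖ ≤ tnorm p v ∧ tnorm p v ≤ b * ‖v‖ := by
  have hs : ∀ f : Fin r → ℝ, (∀ i, 0 < f i) → ∀ i, f i ≤ 1 + ∑ j, f j := by
    intro f hf i
    have h4 : f i ≤ ∑ j, f j :=
      Finset.single_le_sum (f := f) (fun j _ => (hf j).le) (Finset.mem_univ i)
    linarith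
  have hz : ∀ i, 0 < (p.1 i).im := fun i => (p.1 i).im_pos
  have hz' : ∀ i, 0 < (p.1 i).im⁻¹ := fun i => inv_pos.2 (hz i)
  set A : ℝ := 1 + ∑ j, (p.1 j).im with hA
  set B : ℝ := 1 + ∑ j, (p.1 j).im⁻¹ with hB
  have hA1 : 1 ≤ A := by
    have : 0 ≤ ∑ j, (p.1 j).im := Finset.sum_nonneg fun j _ => (hz j).le
    linarith
  have hB1 : 1 ≤ B := by
    have : 0 ≤ ∑ j, (p.1 j).im⁻¹ := Finset.sum_nonneg fun j _ => (hz' j).le
    linarith
  have hA0 : 0 < A := by linarith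
  have hB0 : 0 < B := by linarith
  refine ⟨A⁻¹, B, inv_pos.2 hA0, hB0, fun v => ⟨?_, ?_⟩⟩
  · rw [inv_mul_le_iff₀ hA0]
    unfold tnorm
    set w : E r k := (fun i => ((p.1 i).im : ℂ)⁻¹ * v.1 i, v.2) with hw
    have h0 : 0 ≤ A * ‖w‖ := mul_nonneg hA0.le (norm_nonneg _)
    refine norm_le_AnoA h0 (fun i => ?_) ?_
    · have h3 : v.1 i = ((p.1 i).im : ℂ) * w.1 i := by
        change v.1 i = ((p.1 i).im : ℂ) * (((p.1 i).im : ℂ)⁻¹ * v.1 i)
        rw [mul_inv_cancel_left₀]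
        exact_mod_cast (hz i).ne'
      rw [h3, norm_mul, Complex.norm_real, Real.norm_of_nonneg (hz i).le]
      refine mul_le_mul (hs (fun j => (p.1 j).im) hz i) ?_ (norm_nonneg _) hA0.le
      exact (norm_le_pi_norm w.1 i).trans (norm_fst_le w)
    · have h1 : ‖v.2‖ ≤ ‖w‖ := norm_snd_le w
      have h2 := norm_nonneg w
      nlinarith
  · unfold tnorm
    have h0 : 0 ≤ B * ‖v‖ := mul_nonneg hB0.le (norm_nonneg _)
    refine norm_le_AnoA h0 (fun i => ?_) ?_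
    · change ‖((p.1 i).im : ℂ)⁻¹ * v.1 i‖ ≤ _
      rw [norm_mul, norm_inv, Complex.norm_real, Real.norm_of_nonneg (hz i).le]
      refine mul_le_mul (hs (fun j => (p.1 j).im⁻¹) hz' i) ?_ (norm_nonneg _) hB0.le
      exact (norm_le_pi_norm v.1 i).trans (norm_fst_le v)
    · change ‖v.2‖ ≤ _
      have h1 := norm_snd_le v
      have h2 := norm_nonneg v
      nlinarith

private theorem symm_comp_AnoA (G : X r k ≃ₜ X r k) :
    (G.symm : X r k → X r k) ∘ (G : X r k → X r k) = id :=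
  funext fun p => G.symm_apply_apply p

private theorem tmap_symm_AnoA (h1 : ContDiffOn ℝ 1 (loc F) (dom r k))
    (h2 : ContDiffOn ℝ 1 (loc F.symm) (dom r k)) (n : ℕ) (p : X r k) :
    tmap (F ^ n : X r k ≃ₜ X r k).symm ((F ^ n : X r k ≃ₜ X r k) p) ∘L
      tmap (F ^ n : X r k ≃ₜ X r k) p = ContinuousLinearMap.id ℝ _ := by
  rw [← tmap_comp (contDiffOn_pow_symm h2 n) (contDiffOn_pow h1 n), symm_comp_AnoA, tmap_id]

theorem unstable_pow (h1 : ContDiffOn ℝ 1 (loc F) (dom r k))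
    (h2 : ContDiffOn ℝ 1 (loc F.symm) (dom r k))
    {P : X r k → (E r k →L[ℝ] E r k)} (hP : ∀ p, P (F p) ∘L tmap F p = tmap F p ∘L P p)
    {c : ℝ} {n : ℕ} {p : X r k}
    (h : ∀ v : E r k, P ((F ^ n) p) v = v → tnorm ((F ^ n).symm ((F ^ n) p))
      (tmap (F ^ n : X r k ≃ₜ X r k).symm ((F ^ n) p) v) ≤ c * tnorm ((F ^ n) p) v)
    {v : E r k} (hv : P p v = v) :
    tnorm p v ≤ c * tnorm ((F ^ n) p) (tmap (F ^ n : X r k ≃ₜ X r k) p v) := by
  have h3 : P ((F ^ n : X r k ≃ₜ X r k) p) (tmap (F ^ n : X r k ≃ₜ X r k) p v) =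
      tmap (F ^ n : X r k ≃ₜ X r k) p v := by
    have h4 := congrArg (fun L : E r k →L[ℝ] E r k => L v) (pow_inv h1 hP n p)
    simp only [ContinuousLinearMap.comp_apply] at h4
    rw [h4, hv]
  have h5 := h _ h3
  have h6 : tmap (F ^ n : X r k ≃ₜ X r k).symm ((F ^ n : X r k ≃ₜ X r k) p)
      (tmap (F ^ n : X r k ≃ₜ X r k) p v) = v := by
    have h7 := congrArg (fun L : E r k →L[ℝ] E r k => L v) (tmap_symm_AnoA h1 h2 n p)
    simpa only [ContinuousLinearMap.comp_apply, ContinuousLinearMap.id_apply] using h7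
  rw [h6, Homeomorph.symm_apply_apply] at h5
  exact h5

private theorem det_ne_AnoA {A B : E r k →L[ℝ] E r k}
    (h : A ∘L B = ContinuousLinearMap.id ℝ _) : B.det ≠ 0 := by
  intro h0
  have h1 : (A ∘L B).det = 1 := by
    rw [h]
    exact LinearMap.det_id
  have h2 : (A ∘L B).det = A.det * B.det := LinearMap.det_comp _ _
  rw [h2, h0, mul_zero] at h1
  exact zero_ne_one h1

theorem det_tmap_pow (h1 : ContDiffOn ℝ 1 (loc F) (dom r k))
    (h2 : ContDiffOn ℝ 1 (loc F.symm) (dom r k)) (n : ℕ) (p : X r k) :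
    (tmap (F ^ n : X r k ≃ₜ X r k) p).det ≠ 0 :=
  det_ne_AnoA (tmap_symm_AnoA h1 h2 n p)

theorem det_tmap_deck {g : X r k → X r k} (hg : IsDeck S k g) (p : X r k) :
    (tmap g p).det ≠ 0 := by
  obtain ⟨h, hh, h1, -⟩ := deck_inv hg
  have h2 : h ∘ g = id := funext h1
  refine det_ne_AnoA (A := tmap h (g p)) ?_
  rw [← tmap_comp (deck_contDiffOn hh) (deck_contDiffOn hg), h2, tmap_id]

end Pool.Agent.ANO.Idx
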