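import Pool.Agent.ANO.Idx.Crd

/-!
# ANO, module B: the chain rule (package IDX-CALC)

`loc G = toE ∘ G ∘ ofE` maps `dom r k` to itself, `loc (G ∘ H) = loc G ∘ loc H` everywhere
(because `ofE (toE p) = p`), and `tmap G p = fderiv ℝ (loc G) (toE p)`.
-/

set_option autoImplicit false
set_option linter.unusedSectionVars false

open Set Filter Topology
open scoped UpperHalfPlane MatrixGroups

namespace Pool.Agent.ANO.Idx

variable {r k : ℕ}

theorem loc_mem (G : X r k → X r k) (x : E r k) : loc G x ∈ dom r k := toE_mem _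

theorem loc_toE (G : X r k → X r k) (p : X r k) : loc G (toE p) = toE (G p) := by
  unfold loc
  rw [ofE_toE]

theorem loc_comp (G H : X r k → X r k) (x : E r k) : loc (G ∘ H) x = loc G (loc H x) := by
  unfold loc
  rw [ofE_toE]
  rfl

theorem contDiffOn_comp {G H : X r k → X r k} (hG : ContDiffOn ℝ 1 (loc G) (dom r k))
    (hH : ContDiffOn ℝ 1 (loc H) (dom r k)) : ContDiffOn ℝ 1 (loc (G ∘ H)) (dom r k) :=
  (hG.comp hH (fun x _ => loc_mem H x)).congr (fun x _ => loc_comp G H x)

private theorem loc_id_Calc {x : E r k} (hx : x ∈ dom r k) : loc (id : X r k → X r k) x = x :=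
  toE_ofE hx

theorem contDiffOn_id : ContDiffOn ℝ 1 (loc (id : X r k → X r k)) (dom r k) :=
  _root_.contDiffOn_id.congr (fun _ hx => loc_id_Calc hx)

/-- if `loc G` is continuous on `dom r k` then `G` is continuous -/
theorem continuous_of_loc {G : X r k → X r k} (hG : ContinuousOn (loc G) (dom r k)) :
    Continuous G := by
  have h1 : Continuous (fun p => loc G (toE p)) :=
    hG.comp_continuous continuous_toE (fun p => toE_mem p)
  have h2 : Continuous (fun p => ofE (loc G (toE p))) :=
    continuousOn_ofE.comp_continuous h1 (fun p => loc_mem G _)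
  refine h2.congr fun p => ?_
  rw [loc_toE, ofE_toE]

/-- if `G` is continuous then `loc G` is continuous on `dom r k` -/
theorem continuousOn_loc {G : X r k → X r k} (hG : Continuous G) :
    ContinuousOn (loc G) (dom r k) :=
  continuous_toE.comp_continuousOn (hG.comp_continuousOn continuousOn_ofE)

theorem hasFDerivAt_loc {G : X r k → X r k} (hG : ContDiffOn ℝ 1 (loc G) (dom r k))
    (p : X r k) : HasFDerivAt (loc G) (tmap G p) (toE p) :=
  ((hG.contDiffAt (isOpen_dom.mem_nhds (toE_mem p))).differentiableAt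
    one_ne_zero).hasFDerivAt

theorem tmap_comp {G H : X r k → X r k} (hG : ContDiffOn ℝ 1 (loc G) (dom r k))
    (hH : ContDiffOn ℝ 1 (loc H) (dom r k)) (p : X r k) :
    tmap (G ∘ H) p = tmap G (H p) ∘L tmap H p := by
  have h1 : HasFDerivAt (loc G) (tmap G (H p)) (loc H (toE p)) := by
    rw [loc_toE]
    exact hasFDerivAt_loc hG (H p)
  have h2 := h1.comp (toE p) (hasFDerivAt_loc hH p)
  have h3 : loc (G ∘ H) = loc G ∘ loc H := funext fun x => loc_comp G H x
  unfold tmap
  rw [h3]
  exact h2.fderiv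

theorem tmap_id (p : X r k) : tmap (id : X r k → X r k) p = ContinuousLinearMap.id ℝ _ := by
  have h1 : loc (id : X r k → X r k) =ᶠ[𝓝 (toE p)] id := by
    filter_upwards [isOpen_dom.mem_nhds (toE_mem p)] with x hx using loc_id_Calc hx
  unfold tmap
  rw [h1.fderiv_eq, fderiv_id]

theorem continuous_tmap {G : X r k → X r k} (hG : ContDiffOn ℝ 1 (loc G) (dom r k)) :
    Continuous (tmap G) :=
  (hG.continuousOn_fderiv_of_isOpen isOpen_dom le_rfl).comp_continuous continuous_toE
    (fun p => toE_mem p)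

/-- powers of a homeomorphism; `((F ^ n : X r k ≃ₜ X r k) : X r k → X r k) = F^[n]` -/
theorem contDiffOn_pow {F : X r k ≃ₜ X r k} (hF : ContDiffOn ℝ 1 (loc F) (dom r k)) (n : ℕ) :
    ContDiffOn ℝ 1 (loc (F ^ n : X r k ≃ₜ X r k)) (dom r k) := by
  induction n with
  | zero => exact contDiffOn_id
  | succ n ih =>
    rw [pow_succ]
    have h := contDiffOn_comp ih hF
    exact h

theorem contDiffOn_pow_symm {F : X r k ≃ₜ X r k}
    (hF : ContDiffOn ℝ 1 (loc F.symm) (dom r k)) (n : ℕ) :
    ContDiffOn ℝ 1 (loc (F ^ n : X r k ≃ₜ X r k).symm) (dom r k) := by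
  have h : (F ^ n : X r k ≃ₜ X r k).symm = (F.symm ^ n : X r k ≃ₜ X r k) := (inv_pow F n).symm
  rw [h]
  exact contDiffOn_pow hF n

private theorem contDiffOn_iterate_Calc {G : X r k → X r k}
    (hG : ContDiffOn ℝ 1 (loc G) (dom r k)) (n : ℕ) :
    ContDiffOn ℝ 1 (loc (G^[n])) (dom r k) := by
  induction n with
  | zero => exact contDiffOn_id
  | succ n ih =>
    rw [Function.iterate_succ]
    exact contDiffOn_comp ih hG

/-- the derivative at a fixed point of an iterate -/
theorem tmap_iterate {G : X r k → X r k} (hG : ContDiffOn ℝ 1 (loc G) (dom r k)) {q : X r k}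
    (hq : G q = q) (n : ℕ) : tmap (G^[n]) q = tmap G q ^ n := by
  induction n with
  | zero =>
    rw [pow_zero]
    exact tmap_id q
  | succ n ih =>
    rw [Function.iterate_succ, tmap_comp (contDiffOn_iterate_Calc hG n) hG, hq, ih, pow_succ]
    rfl

/-- `p ↦ toE p - loc G (toE p)` -/
theorem fderiv_id_sub {G : X r k → X r k} (hG : ContDiffOn ℝ 1 (loc G) (dom r k)) (p : X r k) :
    fderiv ℝ (fun x => x - loc G x) (toE p) = 1 - tmap G p :=
  ((hasFDerivAt_id (toE p)).sub (hasFDerivAt_loc hG p)).fderiv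

end Pool.Agent.ANO.Idx
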