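import Pool.Agent.ANO.Iface
import Pool.Agent.ANO.Idx.Calc
import Pool.Agent.ANO.Idx.Count

/-!
# ANO, module B: index data at a fixed point of a map of `ℍ` (definition)

`H : ℍ → ℍ` fixes `w`. Near `w` the map `z ↦ z - H z` is homotopic, without zeros on the circle of
radius `ρ`, to a `C¹` function `κ` which has at most `n` zeros in the disc, all nondegenerate.
-/

set_option autoImplicit false

open Set Filter Topology
open scoped UpperHalfPlane MatrixGroups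

namespace Pool.Agent.ANO.Idx

/-- index data at a fixed point -/
structure Box (H : ℍ → ℍ) (w : ℍ) (n : ℕ) where
  ρ : ℝ
  ρ_pos : 0 < ρ
  sub : Metric.closedBall (w : ℂ) ρ ⊆ {z : ℂ | 0 < z.im}
  W : Set ℂ
  W_open : IsOpen W
  W_sub : Metric.closedBall (w : ℂ) ρ ⊆ W
  κ : ℂ → ℂ
  smooth : ContDiffOn ℝ 1 κ W
  reg : ∀ z ∈ Metric.closedBall (w : ℂ) ρ, κ z = 0 → ∀ v, fderiv ℝ κ z v = 0 → v = 0
  zeros : {z | z ∈ Metric.closedBall (w : ℂ) ρ ∧ κ z = 0}.encard ≤ n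
  bdry : ∀ z ∈ Metric.sphere (w : ℂ) ρ, ∀ t ∈ Icc (0 : ℝ) 1,
    (z - (H (UpperHalfPlane.ofComplex z) : ℂ)) +
      t • (κ z - (z - (H (UpperHalfPlane.ofComplex z) : ℂ))) ≠ 0

end Pool.Agent.ANO.Idx
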