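import Pool.Agent.ANO.Idx.Box

/-!
# ANO, module B: the index at a cone point, the main inequality (package IDX-CONEA)

`ConeFixed S s κ H`: `ψ` is a chart at `s`, `D = D s + ψ ^ κ`, `ψ (H z) = ω ψ z`,
`(ω ψ) ^ κ = stretch L (ψ ^ κ)`, `|arg ω| < π / (2 κ)`, `L > 1`.

* `cone_angle`: for `ω, u ≠ 0` with `|arg ω| < π / (2 κ)`, `(ω u) ^ κ = stretch L (u ^ κ)`:
  put `Z = u ^ κ = x + i y`, `q = stretch L Z / Z = ω ^ κ`. Then
  `(ω - 1) * (1 + ω + ... + ω ^ (κ - 1)) = q - 1`, `(q - 1) * Z ^ 2 = (stretch L Z - Z) * Z` has the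
  real part `(L - 1) x ^ 2 + (1 - L⁻¹) y ^ 2 > 0`, and `1 + ω + ... + ω ^ (κ - 1)` has a positive
  real part (`|arg (ω ^ j)| < π / 2` for `j ≤ κ - 1`). So
  `(ω - 1) * u ^ (2 κ) = N₁ / N₂` with `0 < re N₁`, `0 < re N₂`; hence `(ω - 1) * u ^ (2 κ)` is not
  in `(-∞, 0]`.
* Quantitative form (`cone_angle'`): there is `δ > 0`, depending only on `L`, `κ`, such that for all
  such `ω`, `u` and all `a ≥ 0` (real): `‖(ω - 1) * u ^ (2 κ) + a‖ ≥ δ * (‖u‖ ^ (2 κ) + a)`. Proof: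
  let `U = ‖u‖ ^ (2 κ) = ‖Z‖ ^ 2`, `b = (ω - 1) u ^ (2 κ)`, `N₁ = (stretch L Z - Z) * Z`,
  `N₂ = 1 + ω + ... + ω ^ (κ - 1)`; `N₂ b = N₁` and `N₂ (b + a) = N₁ + a N₂` has the real part
  `re N₁ + a re N₂ ≥ re N₁ ≥ min (L - 1) (1 - L⁻¹) * U`. `‖ω‖ ^ κ = ‖stretch L Z‖ / ‖Z‖ ≤ L`, so
  `‖ω‖ ≤ L` and `‖N₂‖ ≤ κ * L`. So `m = ‖b + a‖ ≥ c₁ U`, `c₁ = min (L - 1) (1 - L⁻¹) / (κ L)`. Also
  `m ≥ a - ‖b‖ ≥ a - (1 + L) U`. So `U + a ≤ m / c₁ + m + (1 + L) m / c₁`. (`re (ω ^ j) > 0` for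
  `j ≤ κ - 1` because `arg`: `ω = ‖ω‖ e^(iα)`, `re (ω ^ j) = ‖ω‖ ^ j cos (j α)`,
  `|j α| < π / 2`. If `u = 0` the claim is trivial for `δ ≤ 1`.)
* `cone_ineq`: let `a₀ = deriv ψ s`, `c = conj a₀ ^ (2 κ - 1) / a₀`, `u = ψ z`. Suppose that
  `(z - H z) + t • (-(c conj (z - s) ^ (2 κ - 1)) - (z - H z)) = 0`, i.e.
  `(1 - t) (H z - z) + t c conj (z - s) ^ (2 κ - 1) = 0`. Multiply by
  `a₀ * (a₀ (z - s)) ^ (2 κ - 1)`: the second term becomes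
  `t ‖a₀ (z - s)‖ ^ (2 (2 κ - 1))`, real and `≥ 0`. For the first term:
  `a₀ (H z - z) = (ψ (H z) - ψ z) + e₁`, `‖e₁‖ ≤ η ‖z - s‖` for `z` near `s`
  (`ψ` is strictly differentiable at `s`, and `H z - s = O(z - s)` because
  `‖ψ (H z)‖ ≤ ‖ω‖ ‖ψ z‖`), and `a₀ (z - s) = u (1 + e₂)`, `e₂ → 0`; so the first term is
  `(1 - t) ((ω - 1) u * u ^ (2 κ - 1) + e₃)`, `‖e₃‖ ≤ η' ‖u‖ ^ (2 κ)`, `η' → 0` as `z → s`. With
  `cone_angle'` (for `t < 1` divide by `1 - t`, `a = t / (1 - t) * ...`) this is impossible if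
  `η' < δ`; for `t = 1` clear.
-/

set_option autoImplicit false
set_option linter.unusedSectionVars false

open Set Filter Topology
open scoped UpperHalfPlane MatrixGroups ComplexConjugate

namespace Pool.Agent.ANO.Idx

private theorem re_pow_ConeA {κ : ℕ} (hκ : 2 ≤ κ) {ω : ℂ} (hω : |ω.arg| < Real.pi / (2 * κ))
    {j : ℕ} (hj : j < κ) : 0 ≤ (ω ^ j).re := by
  have hκ0 : (0 : ℝ) < κ := by
    have : (2 : ℝ) ≤ κ := by exact_mod_cast hκ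
    linarith
  have e : ω ^ j = ((‖ω‖ ^ j : ℝ) : ℂ) * Complex.exp (((j * ω.arg : ℝ) : ℂ) * Complex.I) := by
    conv_lhs => rw [← Complex.norm_mul_exp_arg_mul_I ω]
    rw [mul_pow, ← Complex.exp_nat_mul]
    push_cast
    ring_nf
  rw [e, Complex.re_ofReal_mul, Complex.exp_ofReal_mul_I_re]
  refine mul_nonneg (by positivity) (Real.cos_nonneg_of_mem_Icc (abs_le.1 ?_))
  rw [abs_mul, Nat.abs_cast]
  have h1 : (j : ℝ) ≤ κ := by exact_mod_cast hj.le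
  calc (j : ℝ) * |ω.arg| ≤ κ * (Real.pi / (2 * κ)) :=
        mul_le_mul h1 hω.le (abs_nonneg _) hκ0.le
    _ = Real.pi / 2 := by field_simp

private theorem norm_stretch_ConeA {L : ℝ} (hL : 1 < L) (Z : ℂ) : ‖stretch L Z‖ ≤ L * ‖Z‖ := by
  have hL0 : 0 < L := by linarith
  have hLi : L⁻¹ ≤ L := by
    rw [inv_le_iff_one_le_mul₀ hL0]
    nlinarith
  have hLi0 : 0 < L⁻¹ := inv_pos.2 hL0
  refine abs_le_of_sq_le_sq' ?_ (by positivity) |>.2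
  rw [mul_pow, Complex.sq_norm, Complex.sq_norm, Complex.normSq_apply, Complex.normSq_apply]
  unfold stretch
  dsimp only
  have h1 : (L⁻¹) ^ 2 ≤ L ^ 2 := pow_le_pow_left₀ hLi0.le hLi 2
  nlinarith [mul_self_nonneg Z.im, mul_le_mul_of_nonneg_right h1 (mul_self_nonneg Z.im)]

/-- the norms of the powers of `ω` -/
private theorem norm_pow_ConeA {κ : ℕ} {L : ℝ} (hL : 1 < L) {ω u : ℂ} (hu : u ≠ 0)
    (h : (ω * u) ^ κ = stretch L (u ^ κ)) {j : ℕ} (hj : j ≤ κ) : ‖ω‖ ^ j ≤ L := by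
  have h1 : ‖ω‖ ^ κ ≤ L := by
    have h2 : ‖ω‖ ^ κ * ‖u ^ κ‖ ≤ L * ‖u ^ κ‖ := by
      have h3 := norm_stretch_ConeA hL (u ^ κ)
      rwa [← h, mul_pow, norm_mul, norm_pow ω] at h3
    exact le_of_mul_le_mul_right h2 (norm_pos_iff.2 (pow_ne_zero _ hu))
  rcases le_or_gt ‖ω‖ 1 with h2 | h2
  · exact (pow_le_one₀ (norm_nonneg _) h2).trans hL.le
  · exact (pow_le_pow_right₀ h2.le hj).trans h1

theorem cone_angle' {κ : ℕ} (hκ : 2 ≤ κ) {L : ℝ} (hL : 1 < L) : ∃ δ > 0, ∀ (ω u : ℂ) (a : ℝ),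
    |ω.arg| < Real.pi / (2 * κ) → (ω * u) ^ κ = stretch L (u ^ κ) → 0 ≤ a →
      δ * (‖u‖ ^ (2 * κ) + a) ≤ ‖(ω - 1) * u ^ (2 * κ) + a‖ := by
  have hL0 : 0 < L := by linarith
  have hLi1 : L⁻¹ < 1 := inv_lt_one_of_one_lt₀ hL
  have hκ0 : (0 : ℝ) < κ := by
    have : (2 : ℝ) ≤ κ := by exact_mod_cast hκ
    linarith
  obtain ⟨c₀, hc₀⟩ : ∃ c₀, c₀ = 1 - L⁻¹ := ⟨_, rfl⟩
  have hc₀0 : 0 < c₀ := by rw [hc₀]; linarith
  have hden : 0 < κ * L := mul_pos hκ0 hL0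
  obtain ⟨c₁, hc₁⟩ : ∃ c₁, c₁ = c₀ / (κ * L) := ⟨_, rfl⟩
  have hc₁0 : 0 < c₁ := by rw [hc₁]; positivity
  have hD : 0 < c₁ + 2 + L := by linarith
  refine ⟨c₁ / (c₁ + 2 + L), by positivity, fun ω u a hω h ha => ?_⟩
  rw [div_mul_eq_mul_div, div_le_iff₀ hD]
  by_cases hu : u = 0
  · subst hu
    have hz : (0 : ℂ) ^ (2 * κ) = 0 := zero_pow (by omega)
    have hz' : (0 : ℝ) ^ (2 * κ) = 0 := zero_pow (by omega)
    rw [hz, norm_zero, hz', mul_zero, zero_add, zero_add, Complex.norm_real, Real.norm_eq_abs,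
      abs_of_nonneg ha]
    nlinarith
  · obtain ⟨U, hU⟩ : ∃ U, U = ‖u‖ ^ (2 * κ) := ⟨_, rfl⟩
    obtain ⟨b, hb⟩ : ∃ b, b = (ω - 1) * u ^ (2 * κ) := ⟨_, rfl⟩
    obtain ⟨N, hN⟩ : ∃ N : ℂ, N = ∑ j ∈ Finset.range κ, ω ^ j := ⟨_, rfl⟩
    rw [← hU, ← hb]
    have hU0 : 0 ≤ U := by rw [hU]; positivity
    -- the real part of `N`
    have hNre : 0 ≤ N.re := by
      rw [hN, Complex.re_sum]
      exact Finset.sum_nonneg fun j hj => re_pow_ConeA hκ hω (Finset.mem_range.1 hj)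
    have hNn : ‖N‖ ≤ κ * L := by
      rw [hN]
      refine (norm_sum_le _ _).trans ?_
      calc ∑ j ∈ Finset.range κ, ‖ω ^ j‖ ≤ ∑ _j ∈ Finset.range κ, L :=
            Finset.sum_le_sum fun j hj => by
              rw [norm_pow]
              exact norm_pow_ConeA hL hu h (Finset.mem_range.1 hj).le
        _ = κ * L := by rw [Finset.sum_const, Finset.card_range, nsmul_eq_mul]
    have hNb : N * b = (stretch L (u ^ κ) - u ^ κ) * u ^ κ := by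
      have h1 : N * (ω - 1) = ω ^ κ - 1 := by rw [hN]; exact geom_sum_mul ω κ
      rw [hb, ← mul_assoc, h1, ← h, mul_pow, two_mul, pow_add]
      ring
    have hre : c₀ * U ≤ (N * b).re := by
      have hUn : U = (u ^ κ).re * (u ^ κ).re + (u ^ κ).im * (u ^ κ).im := by
        rw [← Complex.normSq_apply, ← Complex.sq_norm, norm_pow, hU, ← pow_mul, mul_comm κ 2]
      rw [hNb, Complex.mul_re, hUn, Complex.sub_re, Complex.sub_im]
      unfold stretch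
      dsimp only
      have h2 : c₀ ≤ L - 1 := by
        have h3 : (L - 1) - c₀ = (L - 1) * (1 - L⁻¹) := by
          rw [hc₀]
          field_simp
        have h4 : 0 ≤ (L - 1) * (1 - L⁻¹) := mul_nonneg (by linarith) (by linarith)
        linarith
      rw [hc₀] at h2 ⊢
      nlinarith [mul_self_nonneg (u ^ κ).re, mul_self_nonneg (u ^ κ).im,
        mul_le_mul_of_nonneg_right h2 (mul_self_nonneg (u ^ κ).re)]
    obtain ⟨m, hm⟩ : ∃ m, m = ‖b + a‖ := ⟨_, rfl⟩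
    rw [← hm]
    have hm0 : 0 ≤ m := by rw [hm]; exact norm_nonneg _
    have h3 : c₀ * U ≤ κ * L * m := by
      calc c₀ * U ≤ (N * b).re + N.re * a := by
            have := mul_nonneg hNre ha
            linarith
        _ = (N * (b + a)).re := by
            rw [mul_add, Complex.add_re, Complex.re_mul_ofReal]
        _ ≤ ‖N * (b + a)‖ := Complex.re_le_norm _
        _ = ‖N‖ * m := by rw [norm_mul, hm]
        _ ≤ κ * L * m := mul_le_mul_of_nonneg_right hNn hm0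
    have h4 : c₁ * U ≤ m := by
      rw [hc₁, div_mul_eq_mul_div, div_le_iff₀ hden]
      linarith
    have h5 : a ≤ m + (1 + L) * U := by
      have h6 : ‖b‖ ≤ (1 + L) * U := by
        rw [hb, norm_mul, norm_pow, ← hU]
        refine mul_le_mul_of_nonneg_right ?_ hU0
        have h7 := norm_pow_ConeA hL hu h (j := 1) (by omega)
        rw [pow_one] at h7
        calc ‖ω - 1‖ ≤ ‖ω‖ + ‖(1 : ℂ)‖ := norm_sub_le _ _
          _ ≤ 1 + L := by rw [norm_one]; linarith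
      have h8 : a ≤ ‖b + a‖ + ‖b‖ := by
        have h9 : ((a : ℝ) : ℂ) = (b + a) - b := by ring
        calc a = ‖((a : ℝ) : ℂ)‖ := by
              rw [Complex.norm_real, Real.norm_eq_abs, abs_of_nonneg ha]
          _ = ‖(b + a) - b‖ := by rw [← h9]
          _ ≤ ‖b + a‖ + ‖b‖ := norm_sub_le _ _
      rw [hm]
      linarith
    nlinarith [mul_le_mul_of_nonneg_left h5 hc₁0.le, mul_le_mul_of_nonneg_left h4 hL0.le]

private theorem pow_sub_ConeA {w u : ℂ} (n : ℕ) (hw : ‖w‖ ≤ 2 * ‖u‖) :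
    ‖w ^ n - u ^ n‖ ≤ n * 2 ^ n * ‖u‖ ^ (n - 1) * ‖w - u‖ := by
  rw [← Commute.mul_geom_sum₂ (Commute.all w u), norm_mul, mul_comm]
  refine mul_le_mul_of_nonneg_right ?_ (norm_nonneg _)
  refine (norm_sum_le _ _).trans ?_
  calc ∑ i ∈ Finset.range n, ‖w ^ i * u ^ (n - 1 - i)‖
      ≤ ∑ _i ∈ Finset.range n, 2 ^ n * ‖u‖ ^ (n - 1) := by
        refine Finset.sum_le_sum fun i hi => ?_
        have hi' : i < n := Finset.mem_range.1 hi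
        rw [norm_mul, norm_pow, norm_pow]
        calc ‖w‖ ^ i * ‖u‖ ^ (n - 1 - i) ≤ (2 * ‖u‖) ^ i * ‖u‖ ^ (n - 1 - i) :=
              mul_le_mul_of_nonneg_right (pow_le_pow_left₀ (norm_nonneg _) hw i)
                (by positivity)
          _ = 2 ^ i * ‖u‖ ^ (n - 1) := by
              rw [mul_pow, mul_assoc, ← pow_add]
              congr 2
              omega
          _ ≤ 2 ^ n * ‖u‖ ^ (n - 1) :=
              mul_le_mul_of_nonneg_right (pow_le_pow_right₀ (by norm_num) hi'.le)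
                (by positivity)
    _ = n * 2 ^ n * ‖u‖ ^ (n - 1) := by
        rw [Finset.sum_const, Finset.card_range, nsmul_eq_mul]
        ring

/-- the algebra of the main inequality -/
private theorem alg_ConeA {κ : ℕ} (hκ : 2 ≤ κ) {L : ℝ} (hL : 1 < L) {δ : ℝ}
    (hδ0 : 0 < δ) (hδ : ∀ (ω u : ℂ) (a : ℝ),
      |ω.arg| < Real.pi / (2 * κ) → (ω * u) ^ κ = stretch L (u ^ κ) → 0 ≤ a →
      δ * (‖u‖ ^ (2 * κ) + a) ≤ ‖(ω - 1) * u ^ (2 * κ) + a‖) {η : ℝ} (hη0 : 0 ≤ η) (hη1 : η ≤ 1)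
    (hη : η * ((1 + L) * ((2 * κ : ℕ) * 2 ^ (2 * κ) + 2 ^ (2 * κ))) < δ)
    {a₀ d x ω u : ℂ} (ha₀ : a₀ ≠ 0) (hd : d ≠ 0)
    (hω : |ω.arg| < Real.pi / (2 * κ)) (h : (ω * u) ^ κ = stretch L (u ^ κ))
    (h1 : ‖a₀ * d - u‖ ≤ η * ‖u‖) (h2 : ‖a₀ * x - (ω - 1) * u‖ ≤ η * (1 + L) * ‖u‖)
    {t : ℝ} (ht : t ∈ Icc (0 : ℝ) 1) :
    ((1 - t : ℝ) : ℂ) * x + (t : ℂ) * (conj a₀ ^ (2 * κ - 1) / a₀ * conj d ^ (2 * κ - 1)) ≠ 0 := by
  intro h0
  have hw0 : a₀ * d ≠ 0 := mul_ne_zero ha₀ hd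
  have hu0 : u ≠ 0 := by
    rintro rfl
    rw [norm_zero, mul_zero, sub_zero] at h1
    exact hw0 (norm_le_zero_iff.1 h1)
  obtain ⟨w, hw⟩ : ∃ w, w = a₀ * d := ⟨_, rfl⟩
  obtain ⟨n, hn⟩ : ∃ n, n = 2 * κ - 1 := ⟨_, rfl⟩
  have hn1 : 2 * κ = n + 1 := by omega
  rw [← hw] at h1 hw0
  rw [← hn] at h0
  have hwn : ‖w‖ ≤ 2 * ‖u‖ := by
    have h3 : w = (w - u) + u := by ring
    calc ‖w‖ = ‖(w - u) + u‖ := by rw [← h3]
      _ ≤ ‖w - u‖ + ‖u‖ := norm_add_le _ _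
      _ ≤ 2 * ‖u‖ := by nlinarith [norm_nonneg u]
  -- multiply by `a₀ * w ^ n`
  have h4 : ((1 - t : ℝ) : ℂ) * (a₀ * x * w ^ n) + ((t * (‖w‖ ^ 2) ^ n : ℝ) : ℂ) = 0 := by
    have h5 : (((‖w‖ ^ 2) ^ n : ℝ) : ℂ) = conj a₀ ^ n * conj d ^ n * w ^ n := by
      rw [← mul_pow, ← mul_pow, ← map_mul, ← hw]
      push_cast
      rw [Complex.conj_mul']
    rw [Complex.ofReal_mul, h5]
    have h6 : ((1 - t : ℝ) : ℂ) * (a₀ * x * w ^ n) + (t : ℂ) * (conj a₀ ^ n * conj d ^ n * w ^ n) =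
        (a₀ * w ^ n) * (((1 - t : ℝ) : ℂ) * x + (t : ℂ) * (conj a₀ ^ n / a₀ * conj d ^ n)) := by
      field_simp
    rw [h6, h0, mul_zero]
  rcases eq_or_lt_of_le ht.2 with ht1 | ht1
  · rw [ht1] at h4
    simp only [sub_self, Complex.ofReal_zero, zero_mul, one_mul, zero_add] at h4
    rw [Complex.ofReal_eq_zero] at h4
    exact (pow_ne_zero n (pow_ne_zero 2 (norm_ne_zero_iff.2 hw0))) h4
  · have ht1' : (0 : ℝ) < 1 - t := by linarith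
    obtain ⟨a, ha⟩ : ∃ a : ℝ, a = t / (1 - t) * (‖w‖ ^ 2) ^ n := ⟨_, rfl⟩
    have ha0 : 0 ≤ a := by
      rw [ha]
      have := ht.1
      positivity
    have h7 : a₀ * x * w ^ n + (a : ℂ) = 0 := by
      have h8 : ((1 - t : ℝ) : ℂ) ≠ 0 := Complex.ofReal_ne_zero.2 ht1'.ne'
      have h9 : ((1 - t : ℝ) : ℂ) * (a₀ * x * w ^ n + (a : ℂ)) = 0 := by
        rw [mul_add, ← Complex.ofReal_mul, ha]
        have h10 : (1 - t) * (t / (1 - t) * (‖w‖ ^ 2) ^ n) = t * (‖w‖ ^ 2) ^ n := by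
          field_simp
        rw [h10]
        exact h4
      exact (mul_eq_zero.1 h9).resolve_left h8
    obtain ⟨U, hU⟩ : ∃ U, U = ‖u‖ ^ (2 * κ) := ⟨_, rfl⟩
    have hU0 : 0 < U := by
      rw [hU]
      exact pow_pos (norm_pos_iff.2 hu0) _
    have hUn : U = ‖u‖ * ‖u‖ ^ n := by rw [hU, hn1, pow_succ']
    -- the error
    have h11 : ‖a₀ * x * w ^ n - (ω - 1) * u ^ (2 * κ)‖ ≤
        η * ((1 + L) * ((2 * κ : ℕ) * 2 ^ (2 * κ) + 2 ^ (2 * κ))) * U := by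
      have e : a₀ * x * w ^ n - (ω - 1) * u ^ (2 * κ) =
          (a₀ * x - (ω - 1) * u) * w ^ n + (ω - 1) * u * (w ^ n - u ^ n) := by
        rw [hn1, pow_succ']
        ring
      have hω1 : ‖ω - 1‖ ≤ 1 + L := by
        have h7 := norm_pow_ConeA hL hu0 h (j := 1) (by omega)
        rw [pow_one] at h7
        calc ‖ω - 1‖ ≤ ‖ω‖ + ‖(1 : ℂ)‖ := norm_sub_le _ _
          _ ≤ 1 + L := by rw [norm_one]; linarith
      have h12 : ‖(a₀ * x - (ω - 1) * u) * w ^ n‖ ≤ η * (1 + L) * 2 ^ n * U := by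
        rw [norm_mul, norm_pow]
        calc ‖a₀ * x - (ω - 1) * u‖ * ‖w‖ ^ n ≤ (η * (1 + L) * ‖u‖) * (2 * ‖u‖) ^ n :=
              mul_le_mul h2 (pow_le_pow_left₀ (norm_nonneg _) hwn n) (by positivity)
                (by positivity)
          _ = η * (1 + L) * 2 ^ n * U := by
              rw [hUn, mul_pow]
              ring
      have h13 : ‖(ω - 1) * u * (w ^ n - u ^ n)‖ ≤ η * (1 + L) * (n * 2 ^ n) * U := by
        rw [norm_mul, norm_mul]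
        calc ‖ω - 1‖ * ‖u‖ * ‖w ^ n - u ^ n‖
            ≤ (1 + L) * ‖u‖ * (n * 2 ^ n * ‖u‖ ^ (n - 1) * (η * ‖u‖)) := by
              refine mul_le_mul (mul_le_mul_of_nonneg_right hω1 (norm_nonneg _)) ?_
                (norm_nonneg _) (by positivity)
              exact (pow_sub_ConeA n hwn).trans (mul_le_mul_of_nonneg_left h1 (by positivity))
          _ = η * (1 + L) * (n * 2 ^ n) * (‖u‖ * (‖u‖ ^ (n - 1) * ‖u‖)) := by ring
          _ = η * (1 + L) * (n * 2 ^ n) * U := by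
              rw [← pow_succ, hUn]
              congr 4
              omega
      have hnn : (2 : ℝ) ^ n ≤ 2 ^ (2 * κ) := pow_le_pow_right₀ (by norm_num) (by omega)
      have hnκ : (n : ℝ) ≤ (2 * κ : ℕ) := by exact_mod_cast (by omega : n ≤ 2 * κ)
      have h14 : (n : ℝ) * 2 ^ n ≤ (2 * κ : ℕ) * 2 ^ (2 * κ) :=
        mul_le_mul hnκ hnn (by positivity) (by positivity)
      have hηL : 0 ≤ η * (1 + L) := by
        have : 0 < 1 + L := by linarith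
        positivity
      rw [e]
      refine (norm_add_le _ _).trans ?_
      calc _ ≤ η * (1 + L) * 2 ^ n * U + η * (1 + L) * (n * 2 ^ n) * U := add_le_add h12 h13
        _ = η * (1 + L) * (n * 2 ^ n + 2 ^ n) * U := by ring
        _ ≤ η * (1 + L) * ((2 * κ : ℕ) * 2 ^ (2 * κ) + 2 ^ (2 * κ)) * U :=
            mul_le_mul_of_nonneg_right (mul_le_mul_of_nonneg_left (add_le_add h14 hnn) hηL) hU0.le
        _ = η * ((1 + L) * ((2 * κ : ℕ) * 2 ^ (2 * κ) + 2 ^ (2 * κ))) * U := by ring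
    have h15 := hδ ω u a hω h ha0
    have h16 : (ω - 1) * u ^ (2 * κ) + a = -(a₀ * x * w ^ n - (ω - 1) * u ^ (2 * κ)) := by
      have h17 : (a : ℂ) = -(a₀ * x * w ^ n) := by
        rw [eq_neg_iff_add_eq_zero, add_comm]
        exact h7
      rw [h17]
      ring
    rw [h16, norm_neg, ← hU] at h15
    have h17 : η * ((1 + L) * ((2 * κ : ℕ) * 2 ^ (2 * κ) + 2 ^ (2 * κ))) * U < δ * U :=
      mul_lt_mul_of_pos_right hη hU0
    have h18 : δ * U ≤ δ * (U + a) := mul_le_mul_of_nonneg_left (by linarith) hδ0.le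
    linarith

theorem cone_ineq (S : FlatSurface) {s : ℍ} {κ : ℕ} (hκ : 2 ≤ κ) {H : ℍ → ℍ}
    (h : ConeFixed S s κ H) : ∃ c : ℂ, c ≠ 0 ∧ ∀ᶠ z in 𝓝[≠] (s : ℂ), ∀ t ∈ Icc (0 : ℝ) 1,
      (z - (H (UpperHalfPlane.ofComplex z) : ℂ)) + t •
        (-(c * conj (z - s) ^ (2 * κ - 1)) - (z - (H (UpperHalfPlane.ofComplex z) : ℂ))) ≠ 0 := by
  obtain ⟨hHs, hHc, ψ, L, hL, hψ, hψs, ha₀, -, hev⟩ := h
  obtain ⟨a₀, ha₀'⟩ : ∃ a₀, a₀ = deriv ψ (s : ℂ) := ⟨_, rfl⟩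
  rw [← ha₀'] at ha₀
  obtain ⟨δ, hδ0, hδ⟩ := cone_angle' hκ hL
  have hL0 : 0 < 1 + L := by linarith
  obtain ⟨K, hK⟩ : ∃ K : ℝ, K = (1 + L) * ((2 * κ : ℕ) * 2 ^ (2 * κ) + 2 ^ (2 * κ)) := ⟨_, rfl⟩
  have hK0 : 0 < K := by
    rw [hK]
    positivity
  obtain ⟨η, hη0, hη1, hηK⟩ : ∃ η : ℝ, 0 < η ∧ η ≤ 1 ∧ η * K < δ := by
    refine ⟨min 1 (δ / (2 * K)), lt_min one_pos (by positivity), min_le_left _ _, ?_⟩
    calc min 1 (δ / (2 * K)) * K ≤ δ / (2 * K) * K :=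
          mul_le_mul_of_nonneg_right (min_le_right _ _) hK0.le
      _ = δ / 2 := by field_simp
      _ < δ := by linarith
  have hna : 0 < ‖a₀‖ := norm_pos_iff.2 ha₀
  obtain ⟨ε, hε⟩ : ∃ ε : ℝ, ε = η * ‖a₀‖ / 2 := ⟨_, rfl⟩
  have hε0 : 0 < ε := by
    rw [hε]
    positivity
  -- strict differentiability
  have hstr : HasStrictDerivAt ψ a₀ (s : ℂ) := by
    rw [ha₀']
    exact hψ.hasStrictDerivAt
  have hlit : ∀ᶠ p : ℂ × ℂ in 𝓝 ((s : ℂ), (s : ℂ)),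
      ‖ψ p.1 - ψ p.2 - a₀ * (p.1 - p.2)‖ ≤ ε * ‖p.1 - p.2‖ := by
    have h1 := hstr.hasStrictFDerivAt.isLittleO.def hε0
    filter_upwards [h1] with p hp
    have e : (ContinuousLinearMap.toSpanSingleton ℂ a₀) (p.1 - p.2) = a₀ * (p.1 - p.2) := by
      simp [mul_comm]
    rw [← e]
    exact hp
  have hof : Tendsto UpperHalfPlane.ofComplex (𝓝 (s : ℂ)) (𝓝 s) := by
    have h1 := (UpperHalfPlane.contMDiffAt_ofComplex (n := 0) (z := (s : ℂ)) s.2).continuousAt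
    have h2 := h1.tendsto
    rwa [UpperHalfPlane.ofComplex_apply] at h2
  have hHof : Tendsto (fun z : ℂ => (H (UpperHalfPlane.ofComplex z) : ℂ)) (𝓝 (s : ℂ))
      (𝓝 (s : ℂ)) := by
    have h1 : Tendsto (fun z : ℍ => (H z : ℂ)) (𝓝 s) (𝓝 (H s : ℂ)) :=
      (UpperHalfPlane.continuous_coe.comp hHc).tendsto s
    rw [hHs] at h1
    exact h1.comp hof
  have him : ∀ᶠ z in 𝓝 (s : ℂ), ((UpperHalfPlane.ofComplex z : ℍ) : ℂ) = z :=
    UpperHalfPlane.eventuallyEq_coe_comp_ofComplex s.2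
  have hid : Tendsto (fun z : ℂ => z) (𝓝 (s : ℂ)) (𝓝 (s : ℂ)) := tendsto_id
  have hcs : Tendsto (fun _ : ℂ => (s : ℂ)) (𝓝 (s : ℂ)) (𝓝 (s : ℂ)) := tendsto_const_nhds
  have e1 := (hHof.prodMk_nhds hid).eventually hlit
  have e2 := (hid.prodMk_nhds hcs).eventually hlit
  have e3 := (hHof.prodMk_nhds hcs).eventually hlit
  have e4 := hof.eventually hev
  refine ⟨conj a₀ ^ (2 * κ - 1) / a₀, div_ne_zero (pow_ne_zero _ ?_) ha₀, ?_⟩
  · rwa [Ne, map_eq_zero]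
  rw [eventually_nhdsWithin_iff]
  filter_upwards [e1, e2, e3, e4, him] with z h1 h2 h3 h4 h5 hz t ht h0
  obtain ⟨ω, hω, h6, h7⟩ := h4
  rw [h5] at h6 h7
  rw [hψs, sub_zero] at h2 h3
  obtain ⟨y, hy⟩ : ∃ y : ℂ, y = (H (UpperHalfPlane.ofComplex z) : ℂ) := ⟨_, rfl⟩
  rw [← hy] at h0 h1 h3 h6
  obtain ⟨u, hu⟩ : ∃ u, u = ψ z := ⟨_, rfl⟩
  rw [← hu] at h1 h2 h6 h7
  have hzs : z - (s : ℂ) ≠ 0 := sub_ne_zero.2 hz
  have hd1 : ‖z - s‖ * ‖a₀‖ ≤ 2 * ‖u‖ := by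
    have h8 : ‖a₀ * (z - s)‖ ≤ ‖u‖ + ε * ‖z - s‖ := by
      have h9 : a₀ * (z - s) = u - (u - a₀ * (z - s)) := by ring
      calc ‖a₀ * (z - s)‖ = ‖u - (u - a₀ * (z - s))‖ := by rw [← h9]
        _ ≤ ‖u‖ + ‖u - a₀ * (z - s)‖ := norm_sub_le _ _
        _ ≤ ‖u‖ + ε * ‖z - s‖ := by linarith
    rw [norm_mul] at h8
    have h10 : ε * ‖z - s‖ ≤ ‖a₀‖ / 2 * ‖z - s‖ := by
      refine mul_le_mul_of_nonneg_right ?_ (norm_nonneg _)
      rw [hε]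
      nlinarith
    linarith
  have hu0 : u ≠ 0 := by
    rintro rfl
    rw [norm_zero, mul_zero] at hd1
    have : 0 < ‖z - s‖ * ‖a₀‖ := mul_pos (norm_pos_iff.2 hzs) hna
    linarith
  have hωL : ‖ω‖ ≤ L := by
    have h8 := norm_pow_ConeA hL hu0 h7 (j := 1) (by omega)
    rwa [pow_one] at h8
  have hd2 : ‖y - s‖ * ‖a₀‖ ≤ 2 * (L * ‖u‖) := by
    have h8 : ‖a₀ * (y - s)‖ ≤ L * ‖u‖ + ε * ‖y - s‖ := by
      have h9 : a₀ * (y - s) = ψ y - (ψ y - a₀ * (y - s)) := by ring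
      calc ‖a₀ * (y - s)‖ = ‖ψ y - (ψ y - a₀ * (y - s))‖ := by rw [← h9]
        _ ≤ ‖ψ y‖ + ‖ψ y - a₀ * (y - s)‖ := norm_sub_le _ _
        _ ≤ L * ‖u‖ + ε * ‖y - s‖ := by
            refine add_le_add ?_ h3
            rw [h6, norm_mul]
            exact mul_le_mul_of_nonneg_right hωL (norm_nonneg _)
    rw [norm_mul] at h8
    have h10 : ε * ‖y - s‖ ≤ ‖a₀‖ / 2 * ‖y - s‖ := by
      refine mul_le_mul_of_nonneg_right ?_ (norm_nonneg _)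
      rw [hε]
      nlinarith
    linarith
  have g1 : ‖a₀ * (z - s) - u‖ ≤ η * ‖u‖ := by
    rw [norm_sub_rev]
    refine h2.trans ?_
    rw [hε]
    have : η / 2 * (‖z - s‖ * ‖a₀‖) ≤ η / 2 * (2 * ‖u‖) :=
      mul_le_mul_of_nonneg_left hd1 (by positivity)
    linarith
  have g2 : ‖a₀ * (y - z) - (ω - 1) * u‖ ≤ η * (1 + L) * ‖u‖ := by
    have h8 : a₀ * (y - z) - (ω - 1) * u = -(ψ y - u - a₀ * (y - z)) := by
      rw [h6]
      ring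
    rw [h8, norm_neg]
    refine h1.trans ?_
    have h9 : ‖y - z‖ ≤ ‖y - s‖ + ‖z - s‖ := by
      have h10 : y - z = (y - s) - (z - s) := by ring
      rw [h10]
      exact norm_sub_le _ _
    have h11 : ε * ‖y - z‖ ≤ ε * (‖y - s‖ + ‖z - s‖) := mul_le_mul_of_nonneg_left h9 hε0.le
    have h12 : η / 2 * (‖y - s‖ * ‖a₀‖ + ‖z - s‖ * ‖a₀‖) ≤ η / 2 * (2 * (L * ‖u‖) + 2 * ‖u‖) :=
      mul_le_mul_of_nonneg_left (add_le_add hd2 hd1) (by positivity)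
    rw [hε] at h11 ⊢
    linarith
  refine alg_ConeA hκ hL hδ0 hδ hη0.le hη1 (by rw [← hK]; exact hηK) ha₀ hzs hω h7 g1 g2 ht ?_
  rw [Complex.real_smul] at h0
  rw [map_sub] at h0 ⊢
  push_cast at h0 ⊢
  linear_combination (-1 : ℂ) * h0

end Pool.Agent.ANO.Idx
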