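import Pool.Agent.ANO.Defs

/-!
# ANO, module B: coordinates (package IDX-CRD)

`toE : X r k → E r k` is an open embedding onto `dom r k` with the inverse `ofE`
(`UpperHalfPlane.isOpenEmbedding_coe`, `UpperHalfPlane.ofComplex_apply`,
`UpperHalfPlane.ofComplex_apply_of_im_pos`).

* `isOpen_dom`, `convex_dom`: `dom r k` is a finite intersection of open half spaces.
* `convex_ball`: the metric of `X r k` is the maximum metric, so
  `toE '' closedBall p R = {x | (∀ i, x.1 i ∈ (↑) '' closedBall (p.1 i) R) ∧
  x.2 ∈ closedBall p.2 R}` if `0 ≤ R` (`dist_pi_le_iff`, `Prod.dist_eq`, `max_le_iff`), and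
  `UpperHalfPlane.image_coe_closedBall` (hyperbolic balls are Euclidean balls),
  `convex_closedBall`. For `R < 0` the ball is empty.
* `compact_ball`: `isCompact_closedBall` (`X r k` is a proper space) and continuity.
* `dist_le_of_mid`: `toE a` and `toE b` are in the convex set `toE '' closedBall b (dist a b)`,
  so `toE c` is in it, and `toE` is injective (`Convex.add_smul_sub_mem`).
-/

set_option autoImplicit false
set_option linter.unusedSectionVars false

open Set Filter Topology
open scoped UpperHalfPlane MatrixGroups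

namespace Pool.Agent.ANO.Idx

variable {r k : ℕ}

theorem toE_mem (p : X r k) : toE p ∈ dom r k := by
  exact fun i => (p.1 i).im_pos

theorem ofE_toE (p : X r k) : ofE (toE p) = p := by
  exact Prod.ext (funext fun i => UpperHalfPlane.ofComplex_apply (p.1 i)) rfl

theorem toE_ofE {x : E r k} (hx : x ∈ dom r k) : toE (ofE x) = x := by
  refine Prod.ext (funext fun i => ?_) rfl
  change ((UpperHalfPlane.ofComplex (x.1 i) : ℍ) : ℂ) = x.1 i
  rw [UpperHalfPlane.ofComplex_apply_of_im_pos (hx i)]

theorem toE_injective : Function.Injective (toE : X r k → E r k) := by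
  exact Function.LeftInverse.injective (g := ofE) ofE_toE

theorem range_toE : Set.range (toE : X r k → E r k) = dom r k := by
  ext x
  constructor
  · rintro ⟨p, rfl⟩
    exact toE_mem p
  · intro hx
    exact ⟨ofE x, toE_ofE hx⟩

private theorem openEmb_Crd : IsOpenEmbedding (toE : X r k → E r k) := by
  have h : IsOpenEmbedding (Prod.map (Pi.map fun _ : Fin r => ((↑) : ℍ → ℂ))
      (id : (Fin k → ℝ) → (Fin k → ℝ))) :=
    (IsOpenEmbedding.piMap fun _ => UpperHalfPlane.isOpenEmbedding_coe).prodMap
      IsOpenEmbedding.id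
  exact h

theorem continuous_toE : Continuous (toE : X r k → E r k) := by
  exact openEmb_Crd.continuous

theorem isOpenEmbedding_toE : IsOpenEmbedding (toE : X r k → E r k) := by
  exact openEmb_Crd

theorem continuousOn_ofE : ContinuousOn (ofE : E r k → X r k) (dom r k) := by
  intro x hx
  apply ContinuousAt.continuousWithinAt
  rw [← toE_ofE hx, ← openEmb_Crd.continuousAt_iff]
  have h : (ofE : E r k → X r k) ∘ toE = id := funext ofE_toE
  rw [h]
  exact continuousAt_id

theorem isOpen_dom : IsOpen (dom r k) := by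
  rw [← range_toE]
  exact openEmb_Crd.isOpen_range

theorem convex_dom : Convex ℝ (dom r k) := by
  intro x hx y hy a b ha hb hab i
  exact (convex_halfSpace_im_gt 0) (hx i) (hy i) ha hb hab

theorem compact_ball (p : X r k) (R : ℝ) : IsCompact (toE '' Metric.closedBall p R) := by
  exact (isCompact_closedBall p R).image continuous_toE

theorem convex_ball (p : X r k) (R : ℝ) : Convex ℝ (toE '' Metric.closedBall p R) := by
  rcases lt_or_ge R 0 with hR | hR
  · rw [Metric.closedBall_eq_empty.2 hR, Set.image_empty]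
    exact convex_empty
  have h : toE '' Metric.closedBall p R = {x : E r k |
      (∀ i, x.1 i ∈ ((↑) : ℍ → ℂ) '' Metric.closedBall (p.1 i) R) ∧
        x.2 ∈ Metric.closedBall p.2 R} := by
    ext x
    constructor
    · rintro ⟨q, hq, rfl⟩
      rw [Metric.mem_closedBall, Prod.dist_eq, max_le_iff] at hq
      refine ⟨fun i => ⟨q.1 i, ?_, rfl⟩, hq.2⟩
      exact (dist_pi_le_iff hR).1 hq.1 i
    · rintro ⟨h1, h2⟩
      choose q hq hqx using h1
      refine ⟨(q, x.2), ?_, Prod.ext (funext hqx) rfl⟩
      rw [Metric.mem_closedBall, Prod.dist_eq, max_le_iff]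
      exact ⟨(dist_pi_le_iff hR).2 fun i => hq i, h2⟩
  rw [h]
  intro x hx y hy a b ha hb hab
  refine ⟨fun i => ?_, ?_⟩
  · have hc : Convex ℝ (((↑) : ℍ → ℂ) '' Metric.closedBall (p.1 i) R) := by
      rw [UpperHalfPlane.image_coe_closedBall]
      exact convex_closedBall _ _
    exact hc (hx.1 i) (hy.1 i) ha hb hab
  · exact (convex_closedBall p.2 R) hx.2 hy.2 ha hb hab

theorem dist_le_of_mid {a b c : X r k} {t : ℝ} (ht : t ∈ Icc (0 : ℝ) 1)
    (h : toE c = toE a + t • (toE b - toE a)) : dist c b ≤ dist a b := by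
  have ha : toE a ∈ toE '' Metric.closedBall b (dist a b) :=
    ⟨a, Metric.mem_closedBall.2 le_rfl, rfl⟩
  have hb : toE b ∈ toE '' Metric.closedBall b (dist a b) :=
    ⟨b, Metric.mem_closedBall_self dist_nonneg, rfl⟩
  have h1 := (convex_ball b (dist a b)).add_smul_sub_mem ha hb ht
  rw [← h] at h1
  obtain ⟨c', hc', h2⟩ := h1
  rw [← toE_injective h2]
  exact hc'

end Pool.Agent.ANO.Idx
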