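import Pool.Agent.SmoothDegree.NullLagrangian

/-!
# ANO, module B: hyperbolic linear maps (package IDX-LIN)

`A` is invertible and commutes with the projection `P`; the powers of `A` tend to zero on the
kernel of `P` and those of `A⁻¹` on the image of `P`. Write `Q = 1 - P`.

Proof of `lin_sign`: (1) for `t ∈ [0, 1]` the map `M t = (1 - t A) Q + (1 - A) P` is injective: if
`M t v = 0` then (apply `Q`, `P`, which commute with everything) `w = t A w` for `w = Q v`, and
`w = A w` for `w = P v`. The first gives `w = t ^ n A ^ n w`, so `‖w‖ ≤ C μ ^ n ‖w‖` for all `n`,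
`w = 0`. The second gives `A ^ n w = w`, `‖w‖ ≤ C μ ^ n ‖w‖`, `w = 0`. So `det (M t) ≠ 0`; it is
continuous in `t`, so it has the same sign at `t = 1` (`M 1 = 1 - A`) and at `t = 0`
(`M 0 = Q + (1 - A) P`). (2) `M' t = Q + (t - A) P`, `t ∈ [0, 1]`: if `M' t v = 0` then `Q v = 0`
and `A w = t w` for `w = P v`, `A ^ n w = t ^ n w`, `‖w‖ ≤ C μ ^ n t ^ n ‖w‖`, `w = 0`. So
`det (M' 1)` and `det (M' 0)` have the same sign, and `M' 0 = Q - A P = (Q + A P) (1 - 2 P)`.
`(1 - 2 P) ^ 2 = 1`, so its determinant is not zero.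
(`det_comp` is in `Pool.Agent.SmoothDegree.Homotopy`, or use `LinearMap.det_comp`;
`continuous_clm_det`, `det_ne_zero_of_inj` in `Pool.Agent.SmoothDegree.NullLagrangian`; the
determinant of a continuous function without zeros on `[0, 1]`: `intermediate_value_Icc` or
`IsPreconnected`.)
-/

set_option autoImplicit false
set_option linter.unusedSectionVars false

open Set Filter Topology

namespace Pool.Agent.ANO.Idx

variable {V : Type*} [NormedAddCommGroup V] [NormedSpace ℝ V] [FiniteDimensional ℝ V]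

/-- a nonvanishing continuous function on the unit interval has the same sign at the ends -/
theorem sign_eq_of_path {f : ℝ → ℝ} (hf : ContinuousOn f (Icc 0 1))
    (h0 : ∀ t ∈ Icc (0 : ℝ) 1, f t ≠ 0) : SignType.sign (f 0) = SignType.sign (f 1) := by
  have h00 : f 0 ≠ 0 := h0 0 ⟨le_rfl, zero_le_one⟩
  have h11 : f 1 ≠ 0 := h0 1 ⟨zero_le_one, le_rfl⟩
  rcases lt_or_gt_of_ne h00 with ha | ha <;> rcases lt_or_gt_of_ne h11 with hb | hb
  · rw [sign_neg ha, sign_neg hb]
  · exfalso
    obtain ⟨t, ht, ht0⟩ := intermediate_value_Icc zero_le_one hf ⟨ha.le, hb.le⟩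
    exact h0 t ht ht0
  · exfalso
    obtain ⟨t, ht, ht0⟩ := intermediate_value_Icc' zero_le_one hf ⟨hb.le, ha.le⟩
    exact h0 t ht ht0
  · rw [sign_pos ha, sign_pos hb]

private theorem PP_LinS {P : V →L[ℝ] V} (hP : P ∘L P = P) (v : V) : P (P v) = P v := by
  have := congrArg (fun F : V →L[ℝ] V => F v) hP
  simpa using this

private theorem PA_LinS {A P : V →L[ℝ] V} (hAP : P ∘L A = A ∘L P) (v : V) :
    P (A v) = A (P v) := by
  have := congrArg (fun F : V →L[ℝ] V => F v) hAP
  simpa using this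

theorem det_refl_ne_zero {P : V →L[ℝ] V} (hP : P ∘L P = P) : (1 - (2 : ℝ) • P).det ≠ 0 := by
  apply Pool.Agent.SmoothDegree.det_ne_zero_of_inj
  intro v hv
  have h1 : v - (2 : ℝ) • P v = 0 := by simpa using hv
  have h2 : P v - (2 : ℝ) • P v = 0 := by
    have := congrArg P h1
    rw [map_sub, map_smul, PP_LinS hP, map_zero] at this
    exact this
  have h3 : P v = 0 := by
    have h4 : P v - (2 : ℝ) • P v = -P v := by rw [two_smul]; abel
    rw [h4] at h2
    exact neg_eq_zero.1 h2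
  rw [h3, smul_zero, sub_zero] at h1
  exact h1

theorem det_part_ne_zero {A P : V →L[ℝ] V} (hP : P ∘L P = P) (hAP : P ∘L A = A ∘L P)
    (hA : A.det ≠ 0) : ((1 - P) + A ∘L P).det ≠ 0 := by
  apply Pool.Agent.SmoothDegree.det_ne_zero_of_inj
  intro v hv
  have h1 : v - P v + A (P v) = 0 := by simpa using hv
  have h2 : A (P v) = 0 := by
    have := congrArg P h1
    rw [map_add, map_sub, PP_LinS hP, sub_self, zero_add, PA_LinS hAP, PP_LinS hP,
      map_zero] at this
    exact this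
  have h3 : P v = 0 := Pool.Agent.SmoothDegree.inj_of_det_ne_zero A hA _ h2
  rw [h2, h3, sub_zero, add_zero] at h1
  exact h1

private theorem zero_of_le_LinS {w : V} {C μ : ℝ} (hμ : 0 < μ) (hμ1 : μ < 1)
    (h : ∀ n : ℕ, ‖w‖ ≤ C * μ ^ n * ‖w‖) : w = 0 := by
  have hlim : Tendsto (fun n : ℕ => C * μ ^ n * ‖w‖) atTop (𝓝 (C * 0 * ‖w‖)) :=
    ((tendsto_pow_atTop_nhds_zero_of_lt_one hμ.le hμ1).const_mul C).mul_const _
  have := ge_of_tendsto' hlim h
  rw [mul_zero, zero_mul] at this
  exact norm_le_zero_iff.1 this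

private theorem pow_eig_LinS {A : V →L[ℝ] V} {t : ℝ} {w : V} (h : A w = t • w) (n : ℕ) :
    (A ^ n) w = t ^ n • w := by
  induction n with
  | zero => simp
  | succ n ih =>
    rw [pow_succ', mul_apply_eq_comp, ih, map_smul, h, smul_smul, pow_succ]

private theorem pow_eig'_LinS {A : V →L[ℝ] V} {t : ℝ} {w : V} (h : w = t • A w) (n : ℕ) :
    w = t ^ n • (A ^ n) w := by
  induction n with
  | zero => simp
  | succ n ih =>
    have h1 : (A ^ (n + 1)) w = (A ^ n) (A w) := by
      rw [pow_succ, mul_apply_eq_comp]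
    rw [h1, pow_succ, mul_smul, ← map_smul, ← h]
    exact ih

set_option linter.unusedVariables false in
theorem lin_sign {A P : V →L[ℝ] V} (hP : P ∘L P = P) (hAP : P ∘L A = A ∘L P)
    (hA : A.det ≠ 0) {C μ : ℝ} (hC : 0 < C) (hμ : 0 < μ) (hμ1 : μ < 1)
    (h : ∀ (n : ℕ) (v : V), (P v = 0 → ‖(A ^ n) v‖ ≤ C * μ ^ n * ‖v‖) ∧
      (P v = v → ‖v‖ ≤ C * μ ^ n * ‖(A ^ n) v‖)) :
    (1 - A).det ≠ 0 ∧ SignType.sign (1 - A).det =
      SignType.sign (1 - (2 : ℝ) • P).det * SignType.sign ((1 - P) + A ∘L P).det := by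
  -- a vector of the image with `A u = t u` vanishes
  have himg : ∀ t ∈ Icc (0 : ℝ) 1, ∀ u : V, P u = u → A u = t • u → u = 0 := by
    intro t ht u hu hAu
    refine zero_of_le_LinS (C := C) hμ hμ1 fun n => ?_
    refine ((h n u).2 hu).trans ?_
    have hle : ‖(A ^ n) u‖ ≤ ‖u‖ := by
      rw [pow_eig_LinS hAu, norm_smul, norm_pow, Real.norm_eq_abs, abs_of_nonneg ht.1]
      exact mul_le_of_le_one_left (norm_nonneg _) (pow_le_one₀ ht.1 ht.2)
    exact mul_le_mul_of_nonneg_left hle (by positivity)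
  have hker : ∀ t ∈ Icc (0 : ℝ) 1, ∀ w : V, P w = 0 → w = t • A w → w = 0 := by
    intro t ht w hw hAw
    refine zero_of_le_LinS (C := C) hμ hμ1 fun n => ?_
    have hle : ‖w‖ ≤ ‖(A ^ n) w‖ := by
      have h1 := congrArg norm (pow_eig'_LinS hAw n)
      rw [norm_smul, norm_pow, Real.norm_eq_abs, abs_of_nonneg ht.1] at h1
      rw [h1]
      refine (mul_le_of_le_one_left (norm_nonneg _) (pow_le_one₀ ht.1 ht.2)).trans ?_
      exact le_rfl
    exact hle.trans ((h n w).1 hw)
  -- the two paths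
  have hM : ∀ t ∈ Icc (0 : ℝ) 1,
      ((1 - t • A) ∘L (1 - P) + (1 - A) ∘L P).det ≠ 0 := by
    intro t ht
    apply Pool.Agent.SmoothDegree.det_ne_zero_of_inj
    intro v hv
    have h1 : (v - P v) - t • A (v - P v) + (P v - A (P v)) = 0 := hv
    have h2 : P v - A (P v) = 0 := by
      have := congrArg P h1
      simp only [map_add, map_sub, map_smul, PP_LinS hP, PA_LinS hAP, sub_self, smul_zero,
        zero_add, map_zero] at this
      exact this
    have h3 : (v - P v) - t • A (v - P v) = 0 := by rw [h2, add_zero] at h1; exact h1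
    have h4 : P v = 0 := by
      refine himg 1 ⟨zero_le_one, le_rfl⟩ _ (PP_LinS hP v) ?_
      rw [one_smul]
      exact (sub_eq_zero.1 h2).symm
    have h5 : v - P v = 0 :=
      hker t ht _ (by rw [map_sub, PP_LinS hP, sub_self]) (sub_eq_zero.1 h3)
    rw [h4, sub_zero] at h5
    exact h5
  have hM' : ∀ t ∈ Icc (0 : ℝ) 1,
      ((1 - P) + (t • (1 : V →L[ℝ] V) - A) ∘L P).det ≠ 0 := by
    intro t ht
    apply Pool.Agent.SmoothDegree.det_ne_zero_of_inj
    intro v hv
    have h1 : (v - P v) + (t • P v - A (P v)) = 0 := by simpa using hv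
    have h2 : t • P v - A (P v) = 0 := by
      have := congrArg P h1
      simp only [map_add, map_sub, map_smul, PP_LinS hP, PA_LinS hAP, sub_self, zero_add,
        map_zero] at this
      exact this
    have h3 : v - P v = 0 := by rw [h2, add_zero] at h1; exact h1
    have h4 : P v = 0 := himg t ht _ (PP_LinS hP v) (sub_eq_zero.1 h2).symm
    rw [h4, sub_zero] at h3
    exact h3
  have hs1 := sign_eq_of_path (f := fun t : ℝ =>
      ((1 - t • A) ∘L (1 - P) + (1 - A) ∘L P).det) (by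
    refine Continuous.continuousOn ?_
    refine Pool.Agent.SmoothDegree.continuous_clm_det.comp ?_
    refine Continuous.add ?_ continuous_const
    refine Continuous.clm_comp ?_ continuous_const
    fun_prop) hM
  have hs2 := sign_eq_of_path (f := fun t : ℝ =>
      ((1 - P) + (t • (1 : V →L[ℝ] V) - A) ∘L P).det) (by
    refine Continuous.continuousOn ?_
    refine Pool.Agent.SmoothDegree.continuous_clm_det.comp ?_
    refine Continuous.add continuous_const ?_
    refine Continuous.clm_comp ?_ continuous_const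
    fun_prop) hM'
  beta_reduce at hs1 hs2
  have e1 : (1 - (1 : ℝ) • A) ∘L (1 - P) + (1 - A) ∘L P = 1 - A := by
    ext v; simp
  have e0 : (1 - (0 : ℝ) • A) ∘L (1 - P) + (1 - A) ∘L P = (1 - P) + (1 - A) ∘L P := by
    ext v; simp
  have e1' : (1 - P) + ((1 : ℝ) • (1 : V →L[ℝ] V) - A) ∘L P = (1 - P) + (1 - A) ∘L P := by
    rw [one_smul]
  have e0' : (1 - P) + ((0 : ℝ) • (1 : V →L[ℝ] V) - A) ∘L P
      = ((1 - P) + A ∘L P) ∘L (1 - (2 : ℝ) • P) := by
    ext v
    change (v - P v) + ((0 : ℝ) • P v - A (P v)) = ((v - (2 : ℝ) • P v) - P (v - (2 : ℝ) • P v))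
      + A (P (v - (2 : ℝ) • P v))
    rw [map_sub P, map_smul P, PP_LinS hP, map_sub A, map_smul A]
    module
  have hne := hM 1 ⟨zero_le_one, le_rfl⟩
  rw [e1] at hne hs1
  rw [e0] at hs1
  rw [e1', e0'] at hs2
  have hdc : (((1 - P) + A ∘L P) ∘L (1 - (2 : ℝ) • P)).det
      = ((1 - P) + A ∘L P).det * (1 - (2 : ℝ) • P).det := LinearMap.det_comp _ _
  refine ⟨hne, ?_⟩
  rw [← hs1, ← hs2, hdc, sign_mul, mul_comm]

end Pool.Agent.ANO.Idx
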