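import Pool.Agent.ANO.Idx.Triv

/-!
# ANO, module B: the sign of the unstable determinant is the same at all fixed points (IDX-SIGNC)

Let `S, R` be as in `exists_triv` (`x₀` arbitrary in `K`, e.g. `x₀ = q`). For `x` in the segment
`[q, q']` put `B x = R (T x) * A x * S x`. It commutes with `P₀ = P x₀`:
`B x P₀ = R (T x) (A x) (P x) (S x) = R (T x) (P (T x)) (A x) (S x) = P₀ (B x)`; here
`R y * P y = P₀ * R y` follows from `P y * S y = S y * P₀`. The function
`δ x = det ((1 - P₀) + B x P₀)` is continuous on the segment and has no zero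
(`det_part_ne_zero`). If `T x = x` then `(1 - P₀) + B x P₀ = R x ((1 - P x) + (A x) (P x)) S x`, so
`δ x = det ((1 - P x) + (A x) (P x))`. Now use `sign_eq_of_path` with `t ↦ δ (q + t (q' - q))`.
In the same way `t ↦ det (1 - 2 P (q + t (q' - q)))` is continuous and has no zero.
-/

set_option autoImplicit false
set_option linter.unusedSectionVars false

open Set Filter Topology

namespace Pool.Agent.ANO.Idx

variable {V : Type*} [NormedAddCommGroup V] [NormedSpace ℝ V] [FiniteDimensional ℝ V]

private theorem det_mul_SignC (f g : V →L[ℝ] V) : (f * g).det = f.det * g.det :=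
  LinearMap.det_comp (f : V →ₗ[ℝ] V) (g : V →ₗ[ℝ] V)

private theorem det_one_SignC : (1 : V →L[ℝ] V).det = 1 :=
  LinearMap.det_id

private theorem R_comm_SignC {P P0 S R : V →L[ℝ] V} (h1 : S * R = 1) (h2 : R * S = 1)
    (h : P * S = S * P0) : R * P = P0 * R := by
  calc R * P = R * P * (S * R) := by rw [h1, mul_one]
    _ = R * (P * S) * R := by noncomm_ring
    _ = R * (S * P0) * R := by rw [h]
    _ = (R * S) * P0 * R := by noncomm_ring
    _ = P0 * R := by rw [h2, one_mul]

private theorem conj_SignC {P P0 S R A : V →L[ℝ] V} (h2 : R * S = 1)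
    (h : P * S = S * P0) : (1 - P0) + R * A * S * P0 = R * ((1 - P) + A * P) * S := by
  have h3 : R * ((1 - P) + A * P) * S = R * S - R * (P * S) + R * A * (P * S) := by
    noncomm_ring
  rw [h3, h, h2]
  have h4 : R * (S * P0) = P0 := by rw [← mul_assoc, h2, one_mul]
  rw [h4, mul_assoc (R * A) S P0]

theorem sign_const {K : Set V} (hK : IsCompact K) (hKc : Convex ℝ K) {P : V → (V →L[ℝ] V)}
    (hPc : ContinuousOn P K) (hPP : ∀ x ∈ K, P x ∘L P x = P x) {T : V → V}
    {A : V → (V →L[ℝ] V)} {q q' : V} (hq : q ∈ K) (hq' : q' ∈ K)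
    (hT : ContinuousOn T (segment ℝ q q')) (hTK : ∀ x ∈ segment ℝ q q', T x ∈ K)
    (hA : ContinuousOn A (segment ℝ q q')) (hdet : ∀ x ∈ segment ℝ q q', (A x).det ≠ 0)
    (hcomm : ∀ x ∈ segment ℝ q q', P (T x) ∘L A x = A x ∘L P x) (hTq : T q = q)
    (hTq' : T q' = q') :
    SignType.sign ((1 - P q) + A q ∘L P q).det = SignType.sign ((1 - P q') + A q' ∘L P q').det ∧
      SignType.sign (1 - (2 : ℝ) • P q).det = SignType.sign (1 - (2 : ℝ) • P q').det := by
  obtain ⟨S, R, hS, hR, hSR, hRS, hPS⟩ := exists_triv hK hKc hPc hPP hq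
  have hseg : segment ℝ q q' ⊆ K := hKc.segment_subset hq hq'
  have hγ : ∀ t ∈ Icc (0 : ℝ) 1, q + t • (q' - q) ∈ segment ℝ q q' := by
    intro t ht
    rw [segment_eq_image']
    exact ⟨t, ht, rfl⟩
  have hγc : ContinuousOn (fun t : ℝ => q + t • (q' - q)) (Icc 0 1) := by
    fun_prop
  have h0 : q + (0 : ℝ) • (q' - q) = q := by simp
  have h1 : q + (1 : ℝ) • (q' - q) = q' := by simp
  have hdc : Continuous fun f : V →L[ℝ] V => f.det := SmoothDegree.continuous_clm_det
  constructor
  · have hB : ContinuousOn (fun x => R (T x) * A x * S x) (segment ℝ q q') :=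
      ((hR.comp hT hTK).mul hA).mul (hS.mono hseg)
    have hf : ContinuousOn (fun t : ℝ => ((1 - P q) +
        R (T (q + t • (q' - q))) * A (q + t • (q' - q)) * S (q + t • (q' - q)) * P q).det)
        (Icc 0 1) := by
      have h2 : ContinuousOn (fun x => ((1 - P q) + R (T x) * A x * S x * P q).det)
          (segment ℝ q q') :=
        hdc.comp_continuousOn (continuousOn_const.add (hB.mul continuousOn_const))
      exact h2.comp hγc hγ
    have hf0 : ∀ t ∈ Icc (0 : ℝ) 1, ((1 - P q) +
        R (T (q + t • (q' - q))) * A (q + t • (q' - q)) * S (q + t • (q' - q)) * P q).det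
          ≠ 0 := by
      intro t ht
      have hx := hγ t ht
      set x := q + t • (q' - q) with hxdef
      have e1 : P (T x) * A x = A x * P x := hcomm x hx
      have e2 : P x * S x = S x * P q := hPS x (hseg hx)
      have e3 : R (T x) * P (T x) = P q * R (T x) :=
        R_comm_SignC (hSR _ (hTK x hx)) (hRS _ (hTK x hx)) (hPS _ (hTK x hx))
      have e4 : P q * (R (T x) * A x * S x) = R (T x) * A x * S x * P q := by
        calc P q * (R (T x) * A x * S x) = (P q * R (T x)) * A x * S x := by noncomm_ring
          _ = (R (T x) * P (T x)) * A x * S x := by rw [e3]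
          _ = R (T x) * (P (T x) * A x) * S x := by noncomm_ring
          _ = R (T x) * (A x * P x) * S x := by rw [e1]
          _ = R (T x) * A x * (P x * S x) := by noncomm_ring
          _ = R (T x) * A x * (S x * P q) := by rw [e2]
          _ = R (T x) * A x * S x * P q := by noncomm_ring
      have e5 : (R (T x) * A x * S x).det ≠ 0 := by
        have e6 : (R (T x)).det * (S (T x)).det = 1 := by
          rw [← det_mul_SignC, show R (T x) * S (T x) = 1 from hRS _ (hTK x hx), det_one_SignC]
        have e7 : (R x).det * (S x).det = 1 := by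
          rw [← det_mul_SignC, show R x * S x = 1 from hRS _ (hseg hx), det_one_SignC]
        rw [det_mul_SignC, det_mul_SignC]
        exact mul_ne_zero (mul_ne_zero (left_ne_zero_of_mul (e6.trans_ne one_ne_zero))
          (hdet x hx)) (right_ne_zero_of_mul (e7.trans_ne one_ne_zero))
      exact det_part_ne_zero (hPP q hq) e4 e5
    have h2 := sign_eq_of_path hf hf0
    have key : ∀ x ∈ K, T x = x → ((1 - P q) + R (T x) * A x * S x * P q).det =
        ((1 - P x) + A x ∘L P x).det := by
      intro x hx hTx
      rw [hTx, conj_SignC (hRS x hx) (hPS x hx), det_mul_SignC, det_mul_SignC]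
      have e7 : (R x).det * (S x).det = 1 := by
        rw [← det_mul_SignC, show R x * S x = 1 from hRS _ hx, det_one_SignC]
      have e8 : ((1 - P x) + A x * P x).det = ((1 - P x) + A x ∘L P x).det := rfl
      rw [← e8]
      linear_combination ((1 - P x) + A x * P x).det * e7
    beta_reduce at h2
    rw [h0, h1, key q hq hTq, key q' hq' hTq'] at h2
    exact h2
  · have hf : ContinuousOn (fun t : ℝ => (1 - (2 : ℝ) • P (q + t • (q' - q))).det)
        (Icc 0 1) := by
      have h2 : ContinuousOn (fun x => (1 - (2 : ℝ) • P x).det) (segment ℝ q q') :=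
        hdc.comp_continuousOn (continuousOn_const.sub ((hPc.mono hseg).const_smul (2 : ℝ)))
      exact h2.comp hγc hγ
    have h2 := sign_eq_of_path hf fun t ht => det_refl_ne_zero (hPP _ (hseg (hγ t ht)))
    beta_reduce at h2
    rw [h0, h1] at h2
    exact h2

end Pool.Agent.ANO.Idx
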