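import Pool.Agent.ANO.Idx.LinS

/-!
# ANO, module B: trivialisation of a family of projections over a convex set (package IDX-TRIV)

Let `P : V → (V →L[ℝ] V)` be a continuous family of projections on the compact convex set `K`,
`x₀ ∈ K`. For projections `P, P'` put `U P' P = P' P + (1 - P') (1 - P)`. Then
`P' (U P' P) = P' P = (U P' P) P`, and `U P' P - 1 = P' (P - P') + (P' - P) P`, so
`‖U P' P - 1‖ ≤ (‖P'‖ + ‖P‖) ‖P' - P‖ < 1` if `P'` is close to `P`, and then `U P' P` is
invertible. `P` is bounded and uniformly continuous on `K`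
(`IsCompact.uniformContinuousOn_of_continuous`), so for a large number `n` this applies to
`P (x_(i+1))`, `P (x_i)`, `x_i = x₀ + (i / n) (x - x₀)`, for all `x ∈ K` (`K` is bounded). Then
`S x = U (P x_n) (P x_(n-1)) * ... * U (P x_1) (P x_0)` is invertible, continuous in `x ∈ K`, and
`P x * S x = S x * P x₀`. For `R` take `Ring.inverse (S x)` (continuous at units:
`NormedRing.inverse_continuousAt`, here for the complete normed ring `V →L[ℝ] V`).
(Induction on the number of steps: for all `j ≤ n` there is a continuous function `S_j` on `K` with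
invertible values and `P (x_j) * S_j x = S_j x * P x₀`.)
-/

set_option autoImplicit false
set_option linter.unusedSectionVars false

open Set Filter Topology

namespace Pool.Agent.ANO.Idx

variable {V : Type*} [NormedAddCommGroup V] [NormedSpace ℝ V] [FiniteDimensional ℝ V]

/-- the intertwining element of two projections -/
private noncomputable def uu_Triv {A : Type*} [Ring A] (p' p : A) : A := p' * p + (1 - p') * (1 - p)

private theorem uu_left_Triv {A : Type*} [Ring A] {p' p : A} (h' : p' * p' = p') (h : p * p = p) :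
    p' * uu_Triv p' p = uu_Triv p' p * p := by
  have e1 : p' * uu_Triv p' p = p' * p' * p + (p' - p' * p') * (1 - p) := by
    unfold uu_Triv
    noncomm_ring
  have e2 : uu_Triv p' p * p = p' * (p * p) + (1 - p') * (p - p * p) := by
    unfold uu_Triv
    noncomm_ring
  rw [e1, e2, h', h]
  noncomm_ring

private theorem uu_sub_Triv {A : Type*} [Ring A] {p' p : A} (h' : p' * p' = p') (h : p * p = p) :
    1 - uu_Triv p' p = p' * (p' - p) + (p - p') * p := by
  have e1 : p' * (p' - p) + (p - p') * p = p' * p' + p * p - p' * p - p' * p := by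
    noncomm_ring
  rw [e1, h', h]
  unfold uu_Triv
  noncomm_ring

private theorem uu_unit_Triv {A : Type*} [NormedRing A] [CompleteSpace A] {p' p : A}
    (h' : p' * p' = p') (h : p * p = p) {M : ℝ} (hM' : ‖p'‖ ≤ M) (hM : ‖p‖ ≤ M)
    (hd : 2 * M * ‖p' - p‖ < 1) : IsUnit (uu_Triv p' p) := by
  have h1 : ‖1 - uu_Triv p' p‖ < 1 := by
    rw [uu_sub_Triv h' h]
    calc ‖p' * (p' - p) + (p - p') * p‖ ≤ ‖p' * (p' - p)‖ + ‖(p - p') * p‖ := norm_add_le _ _
      _ ≤ ‖p'‖ * ‖p' - p‖ + ‖p - p'‖ * ‖p‖ := add_le_add (norm_mul_le _ _) (norm_mul_le _ _)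
      _ ≤ M * ‖p' - p‖ + ‖p' - p‖ * M := by
          rw [norm_sub_rev p p']
          exact add_le_add (mul_le_mul_of_nonneg_right hM' (norm_nonneg _))
            (mul_le_mul_of_nonneg_left hM (norm_nonneg _))
      _ = 2 * M * ‖p' - p‖ := by ring
      _ < 1 := hd
  have h2 := isUnit_one_sub_of_norm_lt_one h1
  rwa [sub_sub_cancel] at h2

/-- the points of subdivision -/
private noncomputable def pt_Triv (x₀ : V) (n j : ℕ) (x : V) : V := x₀ + ((j : ℝ) / n) • (x - x₀)

/-- the product of the first `j` steps -/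
private noncomputable def ss_Triv (P : V → (V →L[ℝ] V)) (x₀ : V) (n : ℕ) : ℕ → V → (V →L[ℝ] V)
  | 0, _ => 1
  | j + 1, x => uu_Triv (P (pt_Triv x₀ n (j + 1) x)) (P (pt_Triv x₀ n j x)) * ss_Triv P x₀ n j x

theorem exists_triv {K : Set V} (hK : IsCompact K) (hKc : Convex ℝ K) {P : V → (V →L[ℝ] V)}
    (hPc : ContinuousOn P K) (hPP : ∀ x ∈ K, P x ∘L P x = P x) {x₀ : V} (hx₀ : x₀ ∈ K) :
    ∃ S R : V → (V →L[ℝ] V), ContinuousOn S K ∧ ContinuousOn R K ∧
      (∀ x ∈ K, S x ∘L R x = 1) ∧ (∀ x ∈ K, R x ∘L S x = 1) ∧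
      ∀ x ∈ K, P x ∘L S x = S x ∘L P x₀ := by
  have : CompleteSpace V := FiniteDimensional.complete ℝ V
  obtain ⟨M, hM⟩ := hK.exists_bound_of_continuousOn hPc
  have hM0 : 0 ≤ M := (norm_nonneg _).trans (hM x₀ hx₀)
  have huc := hK.uniformContinuousOn_of_continuous hPc
  rw [Metric.uniformContinuousOn_iff] at huc
  obtain ⟨δ, hδ, huc⟩ := huc (1 / (2 * M + 1)) (by positivity)
  obtain ⟨D, hD⟩ := (Metric.isBounded_iff.1 hK.isBounded)
  obtain ⟨n, hn⟩ := exists_nat_gt (D / δ)
  have hD0 : 0 ≤ D := by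
    have := hD hx₀ hx₀
    rwa [dist_self] at this
  have hn0 : 0 < (n : ℝ) := lt_of_le_of_lt (by positivity) hn
  have hmem : ∀ j : ℕ, j ≤ n → ∀ x ∈ K, pt_Triv x₀ n j x ∈ K := by
    intro j hj x hx
    have h1 : (j : ℝ) / n ≤ 1 := by
      rw [div_le_one hn0]
      exact_mod_cast hj
    exact hKc.add_smul_sub_mem hx₀ hx ⟨by positivity, h1⟩
  have hcl : ∀ j : ℕ, j + 1 ≤ n → ∀ x ∈ K,
      dist (P (pt_Triv x₀ n (j + 1) x)) (P (pt_Triv x₀ n j x)) < 1 / (2 * M + 1) := by
    intro j hj x hx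
    refine huc _ (hmem _ hj x hx) _ (hmem _ (by omega) x hx) ?_
    have h1 : pt_Triv x₀ n (j + 1) x - pt_Triv x₀ n j x = (1 / (n : ℝ)) • (x - x₀) := by
      simp only [pt_Triv]
      rw [add_sub_add_left_eq_sub, ← sub_smul]
      congr 1
      push_cast
      ring
    rw [dist_eq_norm, h1, norm_smul, Real.norm_of_nonneg (by positivity), ← dist_eq_norm]
    have h2 := hD hx hx₀
    calc 1 / (n : ℝ) * dist x x₀ ≤ 1 / (n : ℝ) * D := by gcongr
      _ = D / n := by ring
      _ < δ := by
          rw [div_lt_iff₀ hn0]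
          rw [div_lt_iff₀ hδ] at hn
          linarith
  have hPP' : ∀ x ∈ K, P x * P x = P x := hPP
  have hcont : ∀ j : ℕ, j ≤ n → ContinuousOn (fun x => P (pt_Triv x₀ n j x)) K := by
    intro j hj
    refine hPc.comp ?_ (hmem j hj)
    unfold pt_Triv
    fun_prop
  have hmain : ∀ j : ℕ, j ≤ n → ContinuousOn (ss_Triv P x₀ n j) K ∧
      ∀ x ∈ K, IsUnit (ss_Triv P x₀ n j x) ∧
        P (pt_Triv x₀ n j x) * ss_Triv P x₀ n j x = ss_Triv P x₀ n j x * P x₀ := by
    intro j
    induction j with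
    | zero =>
      intro _
      refine ⟨continuousOn_const, fun x _ => ⟨isUnit_one, ?_⟩⟩
      simp [ss_Triv, pt_Triv]
    | succ j ih =>
      intro hj
      obtain ⟨ih1, ih2⟩ := ih (by omega)
      have hc1 := hcont (j + 1) hj
      have hc2 := hcont j (by omega)
      refine ⟨?_, fun x hx => ?_⟩
      · have : ContinuousOn (fun x => uu_Triv (P (pt_Triv x₀ n (j + 1) x))
            (P (pt_Triv x₀ n j x)) * ss_Triv P x₀ n j x) K := by
          unfold uu_Triv
          exact ((hc1.mul hc2).add ((continuousOn_const.sub hc1).mul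
            (continuousOn_const.sub hc2))).mul ih1
        exact this
      · obtain ⟨hu, he⟩ := ih2 x hx
        have hm1 := hmem (j + 1) hj x hx
        have hm2 := hmem j (by omega) x hx
        refine ⟨?_, ?_⟩
        · refine IsUnit.mul ?_ hu
          refine uu_unit_Triv (hPP' _ hm1) (hPP' _ hm2) (hM _ hm1) (hM _ hm2) ?_
          have h3 := hcl j hj x hx
          rw [dist_eq_norm, lt_div_iff₀ (by positivity)] at h3
          have h4 := norm_nonneg (P (pt_Triv x₀ n (j + 1) x) - P (pt_Triv x₀ n j x))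
          nlinarith
        · show P (pt_Triv x₀ n (j + 1) x) * (uu_Triv (P (pt_Triv x₀ n (j + 1) x))
            (P (pt_Triv x₀ n j x)) * ss_Triv P x₀ n j x) = uu_Triv (P (pt_Triv x₀ n (j + 1) x))
            (P (pt_Triv x₀ n j x)) * ss_Triv P x₀ n j x * P x₀
          rw [← mul_assoc, uu_left_Triv (hPP' _ hm1) (hPP' _ hm2), mul_assoc, he, mul_assoc]
  obtain ⟨h1, h2⟩ := hmain n le_rfl
  refine ⟨ss_Triv P x₀ n n, fun x => Ring.inverse (ss_Triv P x₀ n n x), h1, ?_, ?_, ?_, ?_⟩
  · intro x hx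
    obtain ⟨u, hu⟩ := (h2 x hx).1
    have h3 := NormedRing.inverse_continuousAt u
    rw [hu] at h3
    exact h3.comp_continuousWithinAt (h1 x hx)
  · intro x hx
    exact Ring.mul_inverse_cancel _ (h2 x hx).1
  · intro x hx
    exact Ring.inverse_mul_cancel _ (h2 x hx).1
  · intro x hx
    have h3 := (h2 x hx).2
    have h4 : pt_Triv x₀ n n x = x := by
      unfold pt_Triv
      rw [div_self hn0.ne', one_smul]
      abel
    rw [h4] at h3
    exact h3

end Pool.Agent.ANO.Idx
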